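import Mathlib

set_option autoImplicit false

/-!
# Sweeping out along concentrated weights: one scale
-/

namespace Pool.Agent.Q183.Omg

open MeasureTheory Filter Topology Set
open scoped ENNReal

/-- the box `[1, N]²` -/
def box (N : ℕ) : Finset (ℕ × ℕ) := Finset.Icc 1 N ×ˢ Finset.Icc 1 N

theorem card_box (N : ℕ) : (box N).card = N ^ 2 := by
  simp [box, sq]

variable {X : Type*} [MeasurableSpace X] {μ : Measure X} [IsProbabilityMeasure μ] {T : X → X}

open Classical in
/-- the number of `p` in the box of size `N` with `T^[g p] x ∈ E` -/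
noncomputable def hits {X : Type*} (T : X → X) (g : ℕ × ℕ → ℕ) (N : ℕ) (E : Set X) (x : X) : ℕ :=
  ((box N).filter fun p => T^[g p] x ∈ E).card

omit [MeasurableSpace X] in
theorem hits_le (g : ℕ × ℕ → ℕ) (N : ℕ) (E : Set X) (x : X) : hits T g N E x ≤ N ^ 2 := by
  rw [← card_box]
  exact Finset.card_le_card (fun p hp => by
    classical
    simp only [Finset.mem_filter] at hp
    exact hp.1)

/-- points whose first visit to `B` is at time `n` -/
def fst (T : X → X) (B : Set X) (n : ℕ) : Set X := {x | T^[n] x ∈ B ∧ ∀ i < n, T^[i] x ∉ B}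

theorem measurableSet_fst (hT : Measurable T) {B : Set X} (hB : MeasurableSet B) (n : ℕ) :
    MeasurableSet (fst T B n) := by
  have : fst T B n = (T^[n]) ⁻¹' B ∩ ⋂ i : ℕ, ⋂ _ : i < n, ((T^[i]) ⁻¹' B)ᶜ := by
    ext x
    simp [fst]
  rw [this]
  exact ((hT.iterate n) hB).inter (MeasurableSet.iInter fun i => MeasurableSet.iInter fun _ => ((hT.iterate i) hB).compl)

theorem fst_unique {B : Set X} {n m : ℕ} {x : X} (hn : x ∈ fst T B n) (hm : x ∈ fst T B m) : n = m := by
  rcases lt_trichotomy n m with h | h | h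
  · exact absurd hn.1 (hm.2 n h)
  · exact h
  · exact absurd hm.1 (hn.2 m h)

theorem fst_iterate {B : Set X} {n k : ℕ} {x : X} (hn : x ∈ fst T B n) (hk : k ≤ n) : T^[k] x ∈ fst T B (n - k) := by
  refine ⟨?_, fun i hi => ?_⟩
  · rw [← Function.iterate_add_apply, Nat.sub_add_cancel hk]
    exact hn.1
  · rw [← Function.iterate_add_apply]
    exact hn.2 _ (by omega)

/-- the comb: first visits at times `n` with `(n + s) % H < L` -/
def comb (T : X → X) (B : Set X) (H L s : ℕ) : Set X := ⋃ n : ℕ, ⋃ _ : (n + s) % H < L, fst T B n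

theorem measurableSet_comb (hT : Measurable T) {B : Set X} (hB : MeasurableSet B) (H L s : ℕ) :
    MeasurableSet (comb T B H L s) :=
  MeasurableSet.iUnion fun n => MeasurableSet.iUnion fun _ => measurableSet_fst hT hB n

theorem mem_comb {B : Set X} {H L s : ℕ} {x : X} : x ∈ comb T B H L s ↔ ∃ n, (n + s) % H < L ∧ x ∈ fst T B n := by
  simp [comb]

/-- some shift of the comb has measure at most `L / H` -/
theorem exists_comb (hT : Measurable T) {B : Set X} (hB : MeasurableSet B) {H L : ℕ} (hH : 0 < H) :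
    ∃ s < H, (H : ℝ≥0∞) * μ (comb T B H L s) ≤ L := by
  classical
  by_contra hcon
  push Not at hcon
  have h1 : ∑ s ∈ Finset.range H, μ (comb T B H L s) ≤ L := by
    have h2 : ∑ s ∈ Finset.range H, μ (comb T B H L s) =
        ∫⁻ x, ∑ s ∈ Finset.range H, (comb T B H L s).indicator 1 x ∂μ := by
      rw [lintegral_finsetSum]
      · exact Finset.sum_congr rfl fun s _ => (lintegral_indicator_one (measurableSet_comb hT hB H L s)).symm
      · exact fun s _ => measurable_one.indicator (measurableSet_comb hT hB H L s)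
    rw [h2]
    have h3 : ∀ x, ∑ s ∈ Finset.range H, (comb T B H L s).indicator (1 : X → ℝ≥0∞) x ≤ L := by
      intro x
      have h4 : ∑ s ∈ Finset.range H, (comb T B H L s).indicator (1 : X → ℝ≥0∞) x =
          ((Finset.range H).filter fun s => x ∈ comb T B H L s).card := by
        rw [Finset.card_filter]
        push_cast
        refine Finset.sum_congr rfl fun s _ => ?_
        by_cases h : x ∈ comb T B H L s <;> simp [h]
      rw [h4]
      have h5 : ((Finset.range H).filter fun s => x ∈ comb T B H L s).card ≤ (Finset.range L).card := by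
        by_cases hne : ∃ n, x ∈ fst T B n
        · obtain ⟨n, hn⟩ := hne
          refine Finset.card_le_card_of_injOn (fun s => (n + s) % H) ?_ ?_
          · intro s hs
            simp only [Finset.coe_filter, Finset.mem_range, mem_ofPred_eq] at hs
            obtain ⟨m, hm1, hm2⟩ := mem_comb.mp hs.2
            rw [fst_unique hm2 hn] at hm1
            simpa using hm1
          · intro s hs t ht hst
            simp only [Finset.coe_filter, Finset.mem_range, mem_ofPred_eq] at hs ht hst
            have h6 : n + s ≡ n + t [MOD H] := hst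
            have h7 : s ≡ t [MOD H] := Nat.ModEq.add_left_cancel' n h6
            exact Nat.ModEq.eq_of_lt_of_lt h7 hs.1 ht.1
        · have : (Finset.range H).filter (fun s => x ∈ comb T B H L s) = ∅ := by
            rw [Finset.filter_eq_empty_iff]
            intro s _ hs
            obtain ⟨m, _, hm2⟩ := mem_comb.mp hs
            exact hne ⟨m, hm2⟩
          rw [this]; simp
      rw [Finset.card_range] at h5
      exact_mod_cast h5
    calc ∫⁻ x, ∑ s ∈ Finset.range H, (comb T B H L s).indicator 1 x ∂μ ≤ ∫⁻ _x, (L : ℝ≥0∞) ∂μ := lintegral_mono h3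
      _ = L := by simp
  have h2 : (H : ℝ≥0∞) * ∑ s ∈ Finset.range H, μ (comb T B H L s) ≤ H * L := mul_le_mul_right h1 _
  rw [Finset.mul_sum] at h2
  have h3 : ∑ _s ∈ Finset.range H, (L : ℝ≥0∞) < ∑ s ∈ Finset.range H, (H : ℝ≥0∞) * μ (comb T B H L s) := by
    apply ENNReal.sum_lt_sum_of_nonempty (Finset.nonempty_range_iff.mpr hH.ne')
    intro s hs
    exact hcon s (Finset.mem_range.mp hs)
  rw [Finset.sum_const, Finset.card_range, nsmul_eq_mul] at h3
  exact absurd h2 (not_le.mpr h3)

/-- almost every point visits a set of positive measure -/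
theorem ae_visit (hT : Ergodic T μ) {B : Set X} (hB : MeasurableSet B) (hpos : 0 < μ B) :
    μ {x | ∀ n, T^[n] x ∉ B} = 0 := by
  have hm : Measurable T := hT.toMeasurePreserving.measurable
  set V : Set X := ⋃ n : ℕ, (T^[n]) ⁻¹' B with hV
  have hVm : MeasurableSet V := MeasurableSet.iUnion fun n => (hm.iterate n) hB
  have hsub : T ⁻¹' V ⊆ V := by
    intro x hx
    simp only [hV, mem_preimage, mem_iUnion] at hx ⊢
    obtain ⟨n, hn⟩ := hx
    exact ⟨n + 1, by rw [Function.iterate_succ_apply]; exact hn⟩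
  rcases hT.ae_empty_or_univ_of_preimage_ae_le hVm.nullMeasurableSet hsub.eventuallyLE with h | h
  · exfalso
    have h1 : μ V = 0 := by rw [measure_congr h, measure_empty]
    have h2 : B ⊆ V := fun x hx => mem_iUnion.mpr ⟨0, hx⟩
    have := measure_mono (μ := μ) h2
    rw [h1] at this
    exact absurd hpos (not_lt.mpr this)
  · have h1 : μ Vᶜ = 0 := by
      have := ae_eq_univ.mp h
      exact this
    have h2 : {x | ∀ n, T^[n] x ∉ B} = Vᶜ := by
      ext x; simp [hV]
    rw [h2, h1]

theorem measure_preimage_iterate (hT : MeasurePreserving T μ μ) {B : Set X} (hB : MeasurableSet B) (n : ℕ) :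
    μ ((T^[n]) ⁻¹' B) = μ B := (hT.iterate n).measure_preimage hB.nullMeasurableSet

/-- The one-scale lemma. -/
theorem core (hT : Ergodic T μ) (hsmall : ∀ η : ℝ≥0∞, 0 < η → ∃ B, MeasurableSet B ∧ 0 < μ B ∧ μ B < η)
    (g : ℕ × ℕ → ℕ) (M : ℕ → ℝ) (S : ℕ → ℕ) (hM : Tendsto M atTop atTop) (hstep : ∀ y, M (y + 1) ≤ M y + 1)
    (hconc : ∀ ε : ℝ, 0 < ε → ∃ Y, ∀ y, Y ≤ y →
      (((box (S y)).filter fun p => ¬ |(g p : ℝ) - M y| ≤ ε * M y).card : ℝ) ≤ ε * (S y : ℝ) ^ 2)
    {ε : ℝ} (hε : 0 < ε) (Y₀ : ℕ) :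
    ∃ E : Set X, MeasurableSet E ∧ μ E ≤ ENNReal.ofReal ε ∧ ∃ Y₁, Y₀ ≤ Y₁ ∧
      μ {x | ∀ y, Y₀ ≤ y → y ≤ Y₁ → (hits T g (S y) E x : ℝ) < (1 - ε) * (S y : ℝ) ^ 2} ≤ ENNReal.ofReal ε := by
  classical
  obtain ⟨q, hq⟩ := exists_nat_ge (2 / ε + 1)
  have hq1 : (1 : ℝ) ≤ q := by
    have : 0 < 2 / ε := by positivity
    linarith
  have hq0 : (0 : ℝ) < q := by linarith
  have hqn : 0 < q := by exact_mod_cast hq0
  have hqe : 1 / (q : ℝ) ≤ ε / 2 := by
    rw [div_le_div_iff₀ hq0 (by norm_num)]
    have : 2 / ε ≤ q := by linarith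
    rw [div_le_iff₀ hε] at this
    linarith
  set e : ℝ := 1 / (8 * q) with he
  have he0 : 0 < e := by positivity
  have hee : e ≤ ε := by
    have : e = (1 / q) / 8 := by rw [he]; field_simp
    rw [this]
    linarith
  obtain ⟨Y, hY⟩ := hconc e he0
  set Ys := max Y₀ Y with hYs
  obtain ⟨L, hL⟩ := exists_nat_ge (2 * |M Ys| + 16)
  have hL16 : (16 : ℝ) ≤ L := by
    have := abs_nonneg (M Ys)
    linarith
  have hLn : 16 ≤ L := by exact_mod_cast hL16
  set H := q * L with hH
  have hHpos : 0 < H := Nat.mul_pos hqn (by omega)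
  have hHr : (H : ℝ) = q * L := by rw [hH]; push_cast; ring
  obtain ⟨Y₁, hY₁, hMY₁⟩ := ((eventually_ge_atTop Ys).and (hM.eventually_ge_atTop (H : ℝ))).exists
  -- the base
  have hη : (0 : ℝ≥0∞) < ENNReal.ofReal (ε / (2 * H)) := by
    rw [ENNReal.ofReal_pos]; positivity
  obtain ⟨B, hB, hBpos, hBη⟩ := hsmall _ hη
  have hTm : Measurable T := hT.toMeasurePreserving.measurable
  obtain ⟨s, hs, hcomb⟩ := exists_comb (μ := μ) hTm hB (L := L) hHpos
  have hEmeas : μ (comb T B H L s) ≤ ENNReal.ofReal (ε / 2) := by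
    have h1 : μ (comb T B H L s) ≤ (L : ℝ≥0∞) / H := by
      rw [ENNReal.le_div_iff_mul_le (Or.inl (by exact_mod_cast hHpos.ne')) (Or.inl (ENNReal.natCast_ne_top H)), mul_comm]
      exact hcomb
    refine h1.trans ?_
    rw [← ENNReal.ofReal_natCast L, ← ENNReal.ofReal_natCast H, ← ENNReal.ofReal_div_of_pos (by exact_mod_cast hHpos)]
    apply ENNReal.ofReal_le_ofReal
    rw [hHr]
    have : (L : ℝ) / (q * L) = 1 / q := by
      field_simp
    rw [this]; exact hqe
  refine ⟨comb T B H L s, measurableSet_comb hTm hB H L s, hEmeas.trans (ENNReal.ofReal_le_ofReal (by linarith)), Y₁,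
    le_trans (le_max_left _ _) hY₁, ?_⟩
  have hsub : {x | ∀ y, Y₀ ≤ y → y ≤ Y₁ → (hits T g (S y) (comb T B H L s) x : ℝ) < (1 - ε) * (S y : ℝ) ^ 2} ⊆
      ({x | ∀ n, T^[n] x ∉ B} ∪ ⋃ i ∈ Finset.range H, (T^[i]) ⁻¹' B) ∪ comb T B H L s := by
    intro x hx
    by_contra hcon
    simp only [mem_union, not_or] at hcon
    obtain ⟨⟨h1, h2⟩, h3⟩ := hcon
    simp only [mem_ofPred_eq, not_forall, not_not] at h1
    -- first visit
    set n := Nat.find h1 with hn
    have hfst : x ∈ fst T B n := ⟨Nat.find_spec h1, fun i hi => Nat.find_min h1 hi⟩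
    have hnH : H ≤ n := by
      by_contra hlt
      apply h2
      simp only [mem_iUnion]
      exact ⟨n, Finset.mem_range.mpr (by omega), hfst.1⟩
    set h := (n + s) % H with hh
    have hhH : h < H := Nat.mod_lt _ hHpos
    have hhL : L ≤ h := by
      by_contra hlt
      exact h3 (mem_comb.mpr ⟨n, by omega, hfst⟩)
    have hhLr : (L : ℝ) ≤ h := by exact_mod_cast hhL
    have hhHr : (h : ℝ) ≤ H := by exact_mod_cast hhH.le
    set c : ℝ := h - L / 2 with hc
    have hex : ∃ y, Ys ≤ y ∧ c ≤ M y := ⟨Y₁, hY₁, by linarith⟩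
    set y := Nat.find hex with hy
    obtain ⟨hy1, hy2⟩ := Nat.find_spec hex
    have hyY₁ : y ≤ Y₁ := Nat.find_min' hex ⟨hY₁, by linarith⟩
    have hMYs : M Ys < c := by
      have := le_abs_self (M Ys)
      have h0 := abs_nonneg (M Ys)
      linarith
    have hylt : Ys < y := by
      rcases hy1.lt_or_eq with h | h
      · exact h
      · exfalso
        have : M y = M Ys := by rw [hy, ← h]
        rw [← hy, this] at hy2
        linarith
    have hy3 : M y ≤ c + 1 := by
      have h4 : ¬ (Ys ≤ y - 1 ∧ c ≤ M (y - 1)) := Nat.find_min hex (by omega)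
      have h5 : M (y - 1) < c := by
        by_contra h6
        exact h4 ⟨by omega, not_lt.mp h6⟩
      have h6 := hstep (y - 1)
      rw [show y - 1 + 1 = y by omega] at h6
      linarith
    have hgood := hY y ((le_max_right _ _).trans hy1)
    -- all good pairs hit
    have hhit : ((box (S y)).filter fun p => |(g p : ℝ) - M y| ≤ e * M y).card ≤ hits T g (S y) (comb T B H L s) x := by
      unfold hits
      apply Finset.card_le_card
      intro p hp
      rw [Finset.mem_filter] at hp ⊢
      refine ⟨hp.1, ?_⟩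
      have h4 := abs_le.mp hp.2
      have h5 : e * M y ≤ L / 4 := by
        have h6 : M y ≤ H + 1 := by linarith
        have h7 : e * M y ≤ e * (H + 1) := mul_le_mul_of_nonneg_left h6 he0.le
        have h8 : e * (H + 1) = L / 8 + e := by
          rw [hHr, he]; field_simp
        have h9 : e ≤ 1 / 8 := by
          rw [he, div_le_div_iff₀ (by positivity) (by norm_num)]
          linarith
        linarith
      have h6 : (g p : ℝ) ≤ h := by linarith
      have h7 : (h : ℝ) < g p + L := by linarith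
      have h6n : g p ≤ h := by exact_mod_cast h6
      have h7n : h < g p + L := by exact_mod_cast h7
      refine mem_comb.mpr ⟨n - g p, ?_, fst_iterate hfst (by omega)⟩
      have h8 : n - g p + s = (h - g p) + H * ((n + s) / H) := by
        have := Nat.mod_add_div (n + s) H
        omega
      rw [h8, Nat.add_mul_mod_self_left, Nat.mod_eq_of_lt (by omega)]
      omega
    have hcount : ((box (S y)).filter fun p => |(g p : ℝ) - M y| ≤ e * M y).card +
        ((box (S y)).filter fun p => ¬ |(g p : ℝ) - M y| ≤ e * M y).card = S y ^ 2 := by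
      rw [Finset.card_filter_add_card_filter_not, card_box]
    have hcr : (((box (S y)).filter fun p => |(g p : ℝ) - M y| ≤ e * M y).card : ℝ) +
        ((box (S y)).filter fun p => ¬ |(g p : ℝ) - M y| ≤ e * M y).card = (S y : ℝ) ^ 2 := by exact_mod_cast hcount
    have hlt := hx y ((le_max_left _ _).trans hy1) hyY₁
    have hhr : (((box (S y)).filter fun p => |(g p : ℝ) - M y| ≤ e * M y).card : ℝ) ≤
      hits T g (S y) (comb T B H L s) x := by exact_mod_cast hhit
    have : e * (S y : ℝ) ^ 2 ≤ ε * (S y : ℝ) ^ 2 := mul_le_mul_of_nonneg_right hee (by positivity)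
    linarith
  refine (measure_mono hsub).trans ?_
  refine (measure_union_le _ _).trans ?_
  have h1 : μ ({x | ∀ n, T^[n] x ∉ B} ∪ ⋃ i ∈ Finset.range H, (T^[i]) ⁻¹' B) ≤ ENNReal.ofReal (ε / 2) := by
    refine (measure_union_le _ _).trans ?_
    rw [ae_visit hT hB hBpos, zero_add]
    refine (measure_biUnion_finset_le _ _).trans ?_
    have h2 : ∀ i ∈ Finset.range H, μ ((T^[i]) ⁻¹' B) ≤ ENNReal.ofReal (ε / (2 * H)) := fun i _ => by
      rw [measure_preimage_iterate hT.toMeasurePreserving hB]
      exact hBη.le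
    refine (Finset.sum_le_sum h2).trans ?_
    rw [Finset.sum_const, Finset.card_range, nsmul_eq_mul, ← ENNReal.ofReal_natCast H, ← ENNReal.ofReal_mul (by positivity)]
    apply ENNReal.ofReal_le_ofReal
    have : (H : ℝ) * (ε / (2 * H)) = ε / 2 := by
      have : (H : ℝ) ≠ 0 := by exact_mod_cast hHpos.ne'
      field_simp
    rw [this]
  calc _ ≤ ENNReal.ofReal (ε / 2) + ENNReal.ofReal (ε / 2) := add_le_add h1 hEmeas
    _ = ENNReal.ofReal ε := by
      rw [← ENNReal.ofReal_add (by positivity) (by positivity)]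
      congr 1; ring

end Pool.Agent.Q183.Omg
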