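import Mathlib
import Pool.Agent.Q183.Omg.Core
import Pool.Agent.H256R3.NT

set_option autoImplicit false

/-!
# Counting pairs with `d ∣ m ^ 2 + n ^ 2`
-/

namespace Pool.Agent.Q183.Omg

open Finset

/-- the number of `m ∈ [1, N]` in a residue class -/
def cls (N d : ℕ) (a : ZMod d) : ℕ := ((Icc 1 N).filter fun m : ℕ => (m : ZMod d) = a).card

theorem cls_bound (N : ℕ) {d : ℕ} (hd : 0 < d) (a : ZMod d) : |(cls N d a : ℝ) - (N : ℝ) / d| ≤ 1 := by
  haveI : NeZero d := ⟨hd.ne'⟩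
  have h1 : (Icc 1 N).filter (fun m : ℕ => (m : ZMod d) = a) = (Ioc 0 N).filter (fun m => m ≡ a.val [MOD d]) := by
    ext m
    simp only [mem_filter, mem_Icc, mem_Ioc]
    rw [← ZMod.natCast_eq_natCast_iff, ZMod.natCast_zmod_val]
    constructor <;> rintro ⟨⟨h1, h2⟩, h3⟩ <;> exact ⟨⟨by omega, h2⟩, h3⟩
  have h2 := Nat.Ioc_filter_modEq_card 0 N hd a.val
  rw [← h1] at h2
  set f1 := ⌊((N : ℚ) - a.val) / (d : ℚ)⌋ with hf1
  set f2 := ⌊(((0 : ℕ) : ℚ) - a.val) / (d : ℚ)⌋ with hf2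
  have hdq : (0 : ℚ) < d := by exact_mod_cast hd
  have a1 := Int.floor_le (((N : ℚ) - a.val) / (d : ℚ))
  have a2 := Int.lt_floor_add_one (((N : ℚ) - a.val) / (d : ℚ))
  have a3 := Int.floor_le ((((0 : ℕ) : ℚ) - a.val) / (d : ℚ))
  have a4 := Int.lt_floor_add_one ((((0 : ℕ) : ℚ) - a.val) / (d : ℚ))
  rw [← hf1] at a1 a2
  rw [← hf2] at a3 a4
  have hle : f2 ≤ f1 := by
    apply Int.floor_le_floor
    apply div_le_div_of_nonneg_right _ hdq.le
    push_cast
    have : (0 : ℚ) ≤ N := by positivity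
    linarith
  rw [max_eq_left (by linarith)] at h2
  have h3 : (cls N d a : ℚ) = f1 - f2 := by
    have : ((cls N d a : ℤ) : ℚ) = ((f1 - f2 : ℤ) : ℚ) := by rw [cls, h2]
    push_cast at this
    exact this
  have e1 : ((N : ℚ) - a.val) / (d : ℚ) - (((0 : ℕ) : ℚ) - a.val) / (d : ℚ) = N / d := by
    rw [← sub_div]; push_cast; congr 1; ring
  have h4 : |(cls N d a : ℚ) - (N : ℚ) / d| ≤ 1 := by
    rw [h3, abs_le]
    constructor <;> linarith
  have h5 : ((|(cls N d a : ℚ) - (N : ℚ) / d| : ℚ) : ℝ) ≤ ((1 : ℚ) : ℝ) := by exact_mod_cast h4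
  push_cast at h5
  exact h5

/-- the solutions of `a ^ 2 + b ^ 2 = 0` modulo `d` -/
def R (d : ℕ) [NeZero d] : Finset (ZMod d × ZMod d) := univ.filter fun z => z.1 ^ 2 + z.2 ^ 2 = 0

/-- the number of solutions modulo `d` -/
def rho (d : ℕ) [NeZero d] : ℕ := (R d).card

/-- the number of pairs in the box with `d ∣ m ^ 2 + n ^ 2` -/
def C (N d : ℕ) : ℕ := ((box N).filter fun p => d ∣ p.1 ^ 2 + p.2 ^ 2).card

theorem C_eq (N d : ℕ) [NeZero d] : C N d = ∑ z ∈ R d, cls N d z.1 * cls N d z.2 := by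
  rw [C, card_eq_sum_card_fiberwise (f := fun p : ℕ × ℕ => ((p.1 : ZMod d), (p.2 : ZMod d))) (t := R d)]
  · refine sum_congr rfl fun z hz => ?_
    rw [cls, cls, ← card_product]
    congr 1
    ext p
    simp only [mem_filter, box, mem_product, Prod.ext_iff]
    constructor
    · rintro ⟨⟨⟨h1, h2⟩, _⟩, h3, h4⟩
      exact ⟨⟨h1, h3⟩, h2, h4⟩
    · rintro ⟨⟨h1, h3⟩, h2, h4⟩
      refine ⟨⟨⟨h1, h2⟩, ?_⟩, h3, h4⟩
      rw [← ZMod.natCast_eq_zero_iff]
      push_cast
      rw [h3, h4]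
      exact (mem_filter.mp hz).2
  · intro p hp
    simp only [coe_filter, Set.mem_ofPred_eq] at hp
    simp only [R, coe_filter, mem_univ, true_and, Set.mem_ofPred_eq]
    have := (ZMod.natCast_eq_zero_iff _ _).mpr hp.2
    push_cast at this
    exact this

theorem C_bound {N d : ℕ} [NeZero d] (hd : 0 < d) (hdN : d ≤ N) :
    |(C N d : ℝ) - rho d * (N : ℝ) ^ 2 / (d : ℝ) ^ 2| ≤ 3 * rho d * N / d := by
  have hdr : (0 : ℝ) < d := by exact_mod_cast hd
  have ht : 1 ≤ (N : ℝ) / d := by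
    rw [le_div_iff₀ hdr, one_mul]; exact_mod_cast hdN
  set t := (N : ℝ) / d with htd
  have e1 : (C N d : ℝ) - rho d * (N : ℝ) ^ 2 / (d : ℝ) ^ 2 =
      ∑ z ∈ R d, ((cls N d z.1 : ℝ) * cls N d z.2 - t ^ 2) := by
    rw [sum_sub_distrib, C_eq, sum_const, nsmul_eq_mul, rho, htd]
    push_cast
    rw [div_pow]
    ring
  rw [e1]
  refine (abs_sum_le_sum_abs _ _).trans ?_
  have h1 : ∀ z ∈ R d, |(cls N d z.1 : ℝ) * cls N d z.2 - t ^ 2| ≤ 3 * t := by
    intro z _
    have a1 := cls_bound N hd z.1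
    have a2 := cls_bound N hd z.2
    have e2 : (cls N d z.1 : ℝ) * cls N d z.2 - t ^ 2 =
        ((cls N d z.1 : ℝ) - t) * cls N d z.2 + t * ((cls N d z.2 : ℝ) - t) := by ring
    rw [e2]
    refine (abs_add_le _ _).trans ?_
    rw [abs_mul, abs_mul, abs_of_nonneg (by positivity : (0 : ℝ) ≤ cls N d z.2), abs_of_nonneg (by linarith : 0 ≤ t)]
    have a3 : (cls N d z.2 : ℝ) ≤ t + 1 := by
      have := (abs_le.mp a2).2
      linarith
    have a4 : |(cls N d z.1 : ℝ) - t| * cls N d z.2 ≤ 1 * (t + 1) :=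
      mul_le_mul a1 a3 (by positivity) (by norm_num)
    have a5 : t * |(cls N d z.2 : ℝ) - t| ≤ t * 1 := mul_le_mul_of_nonneg_left a2 (by linarith)
    linarith
  refine (sum_le_sum h1).trans ?_
  rw [sum_const, nsmul_eq_mul, ← rho, htd]
  apply le_of_eq
  ring

theorem rho_mul {p q : ℕ} [NeZero p] [NeZero q] [NeZero (p * q)] (h : Nat.Coprime p q) :
    rho (p * q) = rho p * rho q := by
  rw [rho, rho, rho, ← card_product]
  set f := ZMod.chineseRemainder h with hf
  refine card_nbij' (fun z => (((f z.1).1, (f z.2).1), ((f z.1).2, (f z.2).2)))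
    (fun w => (f.symm (w.1.1, w.2.1), f.symm (w.1.2, w.2.2))) ?_ ?_ ?_ ?_
  · intro z hz
    simp only [R, coe_filter, mem_univ, true_and, Set.mem_ofPred_eq] at hz
    have h1 : (f z.1) ^ 2 + (f z.2) ^ 2 = 0 := by
      rw [← map_pow, ← map_pow, ← map_add, hz, map_zero]
    simp only [coe_product, Set.mem_prod, R, coe_filter, mem_univ, true_and, Set.mem_ofPred_eq]
    exact ⟨congrArg Prod.fst h1, congrArg Prod.snd h1⟩
  · intro w hw
    simp only [coe_product, Set.mem_prod, R, coe_filter, mem_univ, true_and, Set.mem_ofPred_eq] at hw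
    simp only [R, coe_filter, mem_univ, true_and, Set.mem_ofPred_eq]
    rw [← map_pow, ← map_pow, ← map_add]
    rw [show ((w.1.1, w.2.1) : ZMod p × ZMod q) ^ 2 + (w.1.2, w.2.2) ^ 2 = 0 from Prod.ext hw.1 hw.2, map_zero]
  · intro z _
    simp
  · intro w _
    simp

theorem rho_le {p : ℕ} (hp : p.Prime) [NeZero p] : rho p ≤ 2 * p := by
  haveI : Fact p.Prime := ⟨hp⟩
  rw [rho, card_eq_sum_card_fiberwise (f := fun z : ZMod p × ZMod p => z.2) (t := univ) (fun z _ => by simp)]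
  have h1 : ∀ b ∈ (univ : Finset (ZMod p)), ((R p).filter fun z => z.2 = b).card ≤ 2 := by
    intro b _
    rcases ((R p).filter fun z => z.2 = b).eq_empty_or_nonempty with h | ⟨z₀, hz₀⟩
    · rw [h]; simp
    · have hsub : (R p).filter (fun z => z.2 = b) ⊆ {(z₀.1, b), (-z₀.1, b)} := by
        intro z hz
        rw [mem_filter] at hz hz₀
        have e1 := (mem_filter.mp hz.1).2
        have e2 := (mem_filter.mp hz₀.1).2
        rw [hz.2] at e1
        rw [hz₀.2] at e2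
        have e3 : z.1 ^ 2 = z₀.1 ^ 2 := by linear_combination e1 - e2
        rw [mem_insert, mem_singleton]
        rcases sq_eq_sq_iff_eq_or_eq_neg.mp e3 with h | h
        · left; exact Prod.ext h hz.2
        · right; exact Prod.ext h hz.2
      exact (card_le_card hsub).trans card_le_two
  refine (sum_le_sum h1).trans ?_
  rw [sum_const, card_univ, ZMod.card, smul_eq_mul, mul_comm]

theorem rho_ge {p : ℕ} (hp : p.Prime) (h4 : (p : ZMod 4) = 1) [NeZero p] : p ≤ rho p := by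
  haveI : Fact p.Prime := ⟨hp⟩
  have hne : p % 4 ≠ 3 := by
    have h2 : (p : ZMod 4) = ((1 : ℕ) : ZMod 4) := by simpa using h4
    have h3 := (ZMod.natCast_eq_natCast_iff _ _ _).mp h2
    unfold Nat.ModEq at h3
    omega
  obtain ⟨s, hs⟩ := (ZMod.exists_sq_eq_neg_one_iff (p := p)).mpr hne
  have h1 : (univ : Finset (ZMod p)).card ≤ (R p).card := by
    refine card_le_card_of_injOn (fun b => (s * b, b)) ?_ ?_
    · intro b _
      simp only [R, coe_filter, mem_univ, true_and, Set.mem_ofPred_eq]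
      linear_combination (-b ^ 2) * hs
    · intro b _ c _ hbc
      exact congrArg Prod.snd hbc
  rw [card_univ, ZMod.card] at h1
  exact h1

end Pool.Agent.Q183.Omg
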