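import Mathlib
import Pool.Agent.Q183.Omg.Cnt

set_option autoImplicit false

/-!
# Prime powers dividing `m ^ 2 + n ^ 2`
-/

namespace Pool.Agent.Q183.Omg

open Finset

theorem half_pow_dvd {p : ℤ} (hp : Prime p) {i : ℕ} (hi : 1 ≤ i) {a b : ℤ} (h : p ^ (2 * i - 1) ∣ a * b) :
    p ^ i ∣ a ∨ p ^ i ∣ b := by
  by_cases ha : p ^ i ∣ a
  · exact Or.inl ha
  right
  have ha0 : a ≠ 0 := by
    rintro rfl
    exact ha (dvd_zero _)
  have hfm : FiniteMultiplicity p a := Int.finiteMultiplicity_iff.mpr ⟨fun h => by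
    have := hp.not_unit
    rw [Int.isUnit_iff_natAbs_eq] at this
    exact this h, ha0⟩
  obtain ⟨a', ha', hna⟩ := hfm.exists_eq_pow_mul_and_not_dvd
  set s := multiplicity p a with hsdef
  rw [ha'] at h ha
  have hs : s < i := by
    by_contra hs
    exact ha ((pow_dvd_pow p (not_lt.mp hs)).trans (dvd_mul_right _ _))
  have h1 : p ^ s * p ^ (2 * i - 1 - s) ∣ p ^ s * (a' * b) := by
    rw [← pow_add, ← mul_assoc, show s + (2 * i - 1 - s) = 2 * i - 1 by omega]
    exact h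
  have h2 : p ^ (2 * i - 1 - s) ∣ a' * b := (mul_dvd_mul_iff_left (pow_ne_zero _ hp.ne_zero)).mp h1
  have h3 : p ^ (2 * i - 1 - s) ∣ b := hp.pow_dvd_of_dvd_mul_left _ hna h2
  exact (pow_dvd_pow p (by omega)).trans h3

/-- if all solutions lie in the classes of `m₀` and `-m₀` there are few -/
theorem two_classes {N r : ℕ} (hr : 0 < r) {Q : Finset ℕ} (hQ : Q ⊆ Icc 1 N)
    (h : ∀ m ∈ Q, ∀ m' ∈ Q, (r : ℤ) ∣ (m : ℤ) - m' ∨ (r : ℤ) ∣ (m : ℤ) + m') : (Q.card : ℝ) ≤ 2 * ((N : ℝ) / r + 1) := by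
  rcases Q.eq_empty_or_nonempty with he | ⟨m₀, hm₀⟩
  · rw [he]; simp; positivity
  · have hsub : Q ⊆ (Icc 1 N).filter (fun m : ℕ => (m : ZMod r) = (m₀ : ZMod r)) ∪
        (Icc 1 N).filter (fun m : ℕ => (m : ZMod r) = (-m₀ : ZMod r)) := by
      intro m hm
      rw [mem_union, mem_filter, mem_filter]
      rcases h m hm m₀ hm₀ with h1 | h1
      · left
        refine ⟨hQ hm, ?_⟩
        have := (ZMod.intCast_zmod_eq_zero_iff_dvd _ _).mpr h1
        push_cast at this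
        linear_combination this
      · right
        refine ⟨hQ hm, ?_⟩
        have := (ZMod.intCast_zmod_eq_zero_iff_dvd _ _).mpr h1
        push_cast at this
        linear_combination this
    have h1 := (card_le_card hsub).trans (card_union_le _ _)
    have h2 : (Q.card : ℝ) ≤ cls N r (m₀ : ZMod r) + cls N r (-m₀ : ZMod r) := by
      exact_mod_cast h1
    have h3 := (abs_le.mp (cls_bound N hr (m₀ : ZMod r))).2
    have h4 := (abs_le.mp (cls_bound N hr (-m₀ : ZMod r))).2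
    linarith

theorem rows {N : ℕ} {P : ℕ → ℕ → Prop} [∀ m n, Decidable (P m n)] {c : ℝ}
    (h : ∀ n ∈ Icc 1 N, (((Icc 1 N).filter fun m => P m n).card : ℝ) ≤ c) :
    (((box N).filter fun z => P z.1 z.2).card : ℝ) ≤ N * c := by
  rw [card_eq_sum_card_fiberwise (f := fun z : ℕ × ℕ => z.2) (t := Icc 1 N) (fun z hz => by
    simp only [box, coe_filter, mem_product, Set.mem_ofPred_eq] at hz
    simpa using hz.1.2)]
  push_cast
  have h1 : ∀ n ∈ Icc 1 N, ((((box N).filter fun z => P z.1 z.2).filter fun z => z.2 = n).card : ℝ) ≤ c := by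
    intro n hn
    refine le_trans ?_ (h n hn)
    have : (((box N).filter fun z => P z.1 z.2).filter fun z => z.2 = n).card ≤
        ((Icc 1 N).filter fun m => P m n).card := by
      refine card_le_card_of_injOn (fun z => z.1) ?_ ?_
      · intro z hz
        simp only [coe_filter, mem_filter, box, mem_product, Set.mem_ofPred_eq] at hz ⊢
        obtain ⟨⟨⟨h1, h2⟩, h3⟩, h4⟩ := hz
        exact ⟨h1, h4 ▸ h3⟩
      · intro z hz w hw hzw
        simp only [coe_filter, mem_filter, Set.mem_ofPred_eq] at hz hw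
        exact Prod.ext hzw (hz.2.trans hw.2.symm)
    exact_mod_cast this
  refine (sum_le_sum h1).trans ?_
  rw [sum_const, nsmul_eq_mul]
  simp

theorem odd_pow_bound (N : ℕ) {p : ℕ} (hp : p.Prime) {i : ℕ} (hi : 1 ≤ i) :
    (((box N).filter fun z => p ^ (2 * i - 1) ∣ z.1 ^ 2 + z.2 ^ 2).card : ℝ) ≤ N * (2 * ((N : ℝ) / (p : ℝ) ^ i + 1)) := by
  have := rows (N := N) (P := fun m n => p ^ (2 * i - 1) ∣ m ^ 2 + n ^ 2) (c := 2 * ((N : ℝ) / ((p ^ i : ℕ) : ℝ) + 1)) ?_
  · push_cast at this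
    exact this
  · intro n _
    refine two_classes (pow_pos hp.pos i) (filter_subset _ _) ?_
    intro m hm m' hm'
    rw [mem_filter] at hm hm'
    have h1 : ((p : ℤ)) ^ (2 * i - 1) ∣ ((m : ℤ) - m') * ((m : ℤ) + m') := by
      have a1 : ((p ^ (2 * i - 1) : ℕ) : ℤ) ∣ ((m ^ 2 + n ^ 2 : ℕ) : ℤ) := by exact_mod_cast hm.2
      have a2 : ((p ^ (2 * i - 1) : ℕ) : ℤ) ∣ ((m' ^ 2 + n ^ 2 : ℕ) : ℤ) := by exact_mod_cast hm'.2
      have a3 := dvd_sub a1 a2
      push_cast at a3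
      have e : ((m : ℤ) - m') * ((m : ℤ) + m') = (m : ℤ) ^ 2 + (n : ℤ) ^ 2 - ((m' : ℤ) ^ 2 + (n : ℤ) ^ 2) := by ring
      rw [e]; exact a3
    have h2 := half_pow_dvd (Nat.prime_iff_prime_int.mp hp) hi h1
    push_cast
    exact h2

theorem sq_bound (N : ℕ) {p : ℕ} (hp : p.Prime) :
    (((box N).filter fun z => p ^ 2 ∣ z.1 ^ 2 + z.2 ^ 2).card : ℝ) ≤
      N * (2 * ((N : ℝ) / (p : ℝ) ^ 2 + 1)) + ((N : ℝ) / p) ^ 2 := by
  have hsub : (box N).filter (fun z => p ^ 2 ∣ z.1 ^ 2 + z.2 ^ 2) ⊆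
      (box N).filter (fun z => p ^ 2 ∣ z.1 ^ 2 + z.2 ^ 2 ∧ ¬ p ∣ z.2) ∪
        ((Ioc 0 N).filter (p ∣ ·)) ×ˢ ((Ioc 0 N).filter (p ∣ ·)) := by
    intro z hz
    rw [mem_filter] at hz
    rw [mem_union, mem_filter]
    by_cases h : p ∣ z.2
    · right
      have h1 : p ∣ z.1 ^ 2 + z.2 ^ 2 := (dvd_pow_self p two_ne_zero).trans hz.2
      have h2 : p ∣ z.1 := by
        have h3 : p ∣ z.1 ^ 2 := (Nat.dvd_add_left (h.trans (dvd_pow_self _ two_ne_zero))).mp h1
        exact hp.dvd_of_dvd_pow h3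
      have h3 := hz.1
      simp only [box, mem_product, mem_Icc] at h3
      rw [mem_product, mem_filter, mem_filter, mem_Ioc, mem_Ioc]
      exact ⟨⟨⟨by omega, h3.1.2⟩, h2⟩, ⟨by omega, h3.2.2⟩, h⟩
    · left
      exact ⟨hz.1, hz.2, h⟩
  have h1 : (((box N).filter fun z => p ^ 2 ∣ z.1 ^ 2 + z.2 ^ 2).card : ℝ) ≤
      (((box N).filter (fun z => p ^ 2 ∣ z.1 ^ 2 + z.2 ^ 2 ∧ ¬ p ∣ z.2)).card : ℝ) +
        ((((Ioc 0 N).filter (p ∣ ·)) ×ˢ ((Ioc 0 N).filter (p ∣ ·))).card : ℝ) := by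
    exact_mod_cast (card_le_card hsub).trans (card_union_le _ _)
  refine h1.trans (add_le_add ?_ ?_)
  · have := rows (N := N) (P := fun m n => p ^ 2 ∣ m ^ 2 + n ^ 2 ∧ ¬ p ∣ n)
      (c := 2 * ((N : ℝ) / ((p ^ 2 : ℕ) : ℝ) + 1)) ?_
    · push_cast at this
      exact this
    · intro n _
      refine two_classes (pow_pos hp.pos 2) (filter_subset _ _) ?_
      intro m hm m' hm'
      rw [mem_filter] at hm hm'
      have hpi := Nat.prime_iff_prime_int.mp hp
      have h1 : ((p : ℤ)) ^ 2 ∣ ((m : ℤ) - m') * ((m : ℤ) + m') := by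
        have a1 : ((p ^ 2 : ℕ) : ℤ) ∣ ((m ^ 2 + n ^ 2 : ℕ) : ℤ) := by exact_mod_cast hm.2.1
        have a2 : ((p ^ 2 : ℕ) : ℤ) ∣ ((m' ^ 2 + n ^ 2 : ℕ) : ℤ) := by exact_mod_cast hm'.2.1
        have a3 := dvd_sub a1 a2
        push_cast at a3
        have e : ((m : ℤ) - m') * ((m : ℤ) + m') = (m : ℤ) ^ 2 + (n : ℤ) ^ 2 - ((m' : ℤ) ^ 2 + (n : ℤ) ^ 2) := by ring
        rw [e]; exact a3
      push_cast
      rcases hp.eq_two_or_odd' with h2 | hodd
      · -- `n` is odd and `4 ∣ m² + n²`: impossible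
        exfalso
        subst h2
        have a1 := hm.2.1
        have a2 := hm.2.2
        have a3 : n % 2 = 1 := by omega
        have a4 : (m ^ 2 + n ^ 2) % 4 = 0 := Nat.mod_eq_zero_of_dvd a1
        have a5 : n % 4 = 1 ∨ n % 4 = 3 := by omega
        have a6 : m % 4 = 0 ∨ m % 4 = 1 ∨ m % 4 = 2 ∨ m % 4 = 3 := by omega
        rw [Nat.add_mod, Nat.pow_mod, Nat.pow_mod n] at a4
        rcases a5 with a5 | a5 <;> rcases a6 with a6 | a6 | a6 | a6 <;> rw [a5, a6] at a4 <;> norm_num at a4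
      · by_cases hd : (p : ℤ) ∣ (m : ℤ) - m'
        · by_cases hs : (p : ℤ) ∣ (m : ℤ) + m'
          · exfalso
            have a1 : (p : ℤ) ∣ 2 * m := by
              have := dvd_add hd hs
              have e : (m : ℤ) - m' + (m + m') = 2 * m := by ring
              rwa [e] at this
            rcases hpi.dvd_or_dvd a1 with a2 | a2
            · have a3 : p ∣ 2 := by exact_mod_cast a2
              have := (Nat.prime_dvd_prime_iff_eq hp Nat.prime_two).mp a3
              rw [this] at hodd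
              exact absurd hodd (by decide)
            · have a3 : p ∣ m := by exact_mod_cast a2
              have a4 : p ∣ m ^ 2 + n ^ 2 := (dvd_pow_self p two_ne_zero).trans hm.2.1
              have a5 : p ∣ n ^ 2 := (Nat.dvd_add_right (a3.trans (dvd_pow_self _ two_ne_zero))).mp a4
              exact hm.2.2 (hp.dvd_of_dvd_pow a5)
          · left
            rw [mul_comm] at h1
            exact hpi.pow_dvd_of_dvd_mul_left _ hs h1
        · right
          exact hpi.pow_dvd_of_dvd_mul_left _ hd h1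
  · rw [card_product, Nat.Ioc_filter_dvd_card_eq_div]
    push_cast
    have h2 : ((N / p : ℕ) : ℝ) ≤ (N : ℝ) / p := Nat.cast_div_le
    rw [← sq]
    exact pow_le_pow_left₀ (by positivity) h2 2

/-- the primes up to `y` -/
def Pr (y : ℕ) : Finset ℕ := (range (y + 1)).filter Nat.Prime

theorem mem_Pr {y p : ℕ} : p ∈ Pr y ↔ p.Prime ∧ p ≤ y := by
  rw [Pr, mem_filter, mem_range]
  constructor
  · rintro ⟨h1, h2⟩; exact ⟨h2, by omega⟩
  · rintro ⟨h1, h2⟩; exact ⟨by omega, h1⟩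

theorem card_Pr (y : ℕ) : (Pr y).card ≤ y := by
  have h1 : Pr y ⊆ Ioc 0 y := fun p hp => by
    rw [mem_Pr] at hp
    rw [mem_Ioc]
    exact ⟨hp.1.pos, hp.2⟩
  have := card_le_card h1
  rwa [Nat.card_Ioc, Nat.sub_zero] at this

/-- the multiplicity part -/
def Sx (y k : ℕ) : ℕ := ∑ p ∈ Pr y, ((if p ^ 2 ∣ k then 1 else 0) +
  2 * ∑ i ∈ Icc 2 (4 * y), if p ^ (2 * i - 1) ∣ k then 1 else 0)

/-- the number of prime divisors up to `y` -/
def om (y k : ℕ) : ℕ := ∑ p ∈ Pr y, if p ∣ k then 1 else 0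

theorem val_le {p k I : ℕ} (hp : p.Prime) (hk : k ≠ 0) (hv : k.factorization p ≤ 2 * I) :
    k.factorization p ≤ (if p ∣ k then 1 else 0) + ((if p ^ 2 ∣ k then 1 else 0) +
      2 * ∑ i ∈ Icc 2 I, if p ^ (2 * i - 1) ∣ k then 1 else 0) := by
  have hd : ∀ j, p ^ j ∣ k ↔ j ≤ k.factorization p := fun j => hp.pow_dvd_iff_le_factorization hk
  set v := k.factorization p with hvd
  have h1 : (p ∣ k) ↔ 1 ≤ v := by rw [← hd, pow_one]
  simp only [hd, h1]
  have h2 : ∑ i ∈ Icc 2 I, (if 2 * i - 1 ≤ v then 1 else 0) = ((Icc 2 I).filter fun i => 2 * i - 1 ≤ v).card := by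
    rw [card_filter]
  rw [h2]
  have h3 : Icc 2 ((v + 1) / 2) ⊆ (Icc 2 I).filter fun i => 2 * i - 1 ≤ v := by
    intro i hi
    rw [mem_Icc] at hi
    rw [mem_filter, mem_Icc]
    omega
  have h4 := card_le_card h3
  rw [Nat.card_Icc] at h4
  split_ifs <;> omega

theorem Omega_bounds {y k : ℕ} (hy : 3 ≤ y) (hk : k ≠ 0) (hky : k ≤ 2 * y ^ 8) :
    om y k ≤ ArithmeticFunction.cardFactors k ∧ ArithmeticFunction.cardFactors k ≤ om y k + Sx y k + 8 := by
  have hΩ : ArithmeticFunction.cardFactors k = ∑ p ∈ k.primeFactors, k.factorization p := by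
    rw [ArithmeticFunction.cardFactors_eq_sum_factorization]
    rfl
  constructor
  · rw [hΩ]
    have h1 : om y k = ∑ p ∈ (Pr y).filter (· ∣ k), 1 := by
      rw [om, sum_filter]
    rw [h1]
    calc ∑ p ∈ (Pr y).filter (· ∣ k), 1 ≤ ∑ p ∈ (Pr y).filter (· ∣ k), k.factorization p := by
          refine sum_le_sum fun p hp => ?_
          rw [mem_filter, mem_Pr] at hp
          exact (hp.1.1.dvd_iff_one_le_factorization hk).mp hp.2
      _ ≤ ∑ p ∈ k.primeFactors, k.factorization p := by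
          refine sum_le_sum_of_subset fun p hp => ?_
          rw [mem_filter, mem_Pr] at hp
          exact Nat.mem_primeFactors.mpr ⟨hp.1.1, hp.2, hk⟩
  · rw [hΩ, ← sum_filter_add_sum_filter_not k.primeFactors (· ≤ y)]
    have h1 : ∑ p ∈ k.primeFactors.filter (· ≤ y), k.factorization p ≤ om y k + Sx y k := by
      rw [om, Sx, ← sum_add_distrib]
      calc ∑ p ∈ k.primeFactors.filter (· ≤ y), k.factorization p ≤ ∑ p ∈ Pr y, k.factorization p := by
            refine sum_le_sum_of_subset fun p hp => ?_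
            rw [mem_filter] at hp
            exact mem_Pr.mpr ⟨Nat.prime_of_mem_primeFactors hp.1, hp.2⟩
        _ ≤ _ := by
            refine sum_le_sum fun p hp => ?_
            rw [mem_Pr] at hp
            refine val_le hp.1 hk ?_
            have h2 : 2 ^ k.factorization p ≤ 2 * y ^ 8 := by
              calc 2 ^ k.factorization p ≤ p ^ k.factorization p := Nat.pow_le_pow_left hp.1.two_le _
                _ ≤ k := Nat.ordProj_le p hk
                _ ≤ _ := hky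
            have h3 : y < 2 ^ y := Nat.lt_pow_self (by norm_num)
            have h4 : 2 * y ^ 8 < 2 ^ (8 * y + 1) := by
              calc 2 * y ^ 8 < 2 * (2 ^ y) ^ 8 := by
                    have := Nat.pow_lt_pow_left h3 (n := 8) (by norm_num)
                    omega
                _ = 2 ^ (8 * y + 1) := by rw [← pow_mul, pow_succ, mul_comm y 8]; ring
            have h5 := (Nat.pow_lt_pow_iff_right (by norm_num : 1 < 2)).mp (lt_of_le_of_lt h2 h4)
            omega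
    have h2 : ∑ p ∈ k.primeFactors.filter (fun p => ¬ p ≤ y), k.factorization p ≤ 8 := by
      by_contra hcon
      rw [not_le] at hcon
      have h3 : y ^ (∑ p ∈ k.primeFactors.filter (fun p => ¬ p ≤ y), k.factorization p) ≤ k := by
        rw [← prod_pow_eq_pow_sum]
        calc ∏ p ∈ k.primeFactors.filter (fun p => ¬ p ≤ y), y ^ k.factorization p
            ≤ ∏ p ∈ k.primeFactors.filter (fun p => ¬ p ≤ y), p ^ k.factorization p := by
              refine prod_le_prod' fun p hp => ?_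
              rw [mem_filter] at hp
              exact Nat.pow_le_pow_left (by omega) _
          _ ≤ ∏ p ∈ k.primeFactors, p ^ k.factorization p := by
              refine Nat.le_of_dvd ?_ (prod_dvd_prod_of_subset _ _ _ (filter_subset _ _))
              refine prod_pos fun p hp => pow_pos (Nat.pos_of_mem_primeFactors hp) _
          _ = k := Nat.factorization_prod_pow_eq_self hk
      have h4 : y ^ 9 ≤ k := (Nat.pow_le_pow_right (by omega) hcon).trans h3
      have h5 : y ^ 9 = y ^ 8 * y := pow_succ y 8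
      have h6 : 0 < y ^ 8 := pow_pos (by omega) 8
      nlinarith
    omega

theorem sum_inv_sq (y : ℕ) : ∑ p ∈ Pr y, (1 : ℝ) / (p : ℝ) ^ 2 ≤ 1 := by
  have h1 : ∀ n : ℕ, 1 ≤ n → ∑ k ∈ Ioc 1 n, (1 : ℝ) / (k : ℝ) ^ 2 ≤ 1 - 1 / n := by
    intro n hn
    induction n, hn using Nat.le_induction with
    | base => simp
    | succ n hn ih =>
      rw [← Finset.insert_Ioc_right_eq_Ioc_add_one (by omega), sum_insert (by simp)]
      have hn0 : (0 : ℝ) < n := by exact_mod_cast hn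
      have h2 : (1 : ℝ) / ((n + 1 : ℕ) : ℝ) ^ 2 ≤ 1 / n - 1 / ((n + 1 : ℕ) : ℝ) := by
        push_cast
        rw [div_sub_div _ _ hn0.ne' (by positivity), div_le_div_iff₀ (by positivity) (by positivity)]
        nlinarith
      linarith
  rcases Nat.eq_zero_or_pos y with hy | hy
  · subst hy
    have : Pr 0 = ∅ := by
      rw [eq_empty_iff_forall_notMem]
      intro p hp
      rw [mem_Pr] at hp
      have := hp.1.pos
      omega
    rw [this]; simp
  · calc ∑ p ∈ Pr y, (1 : ℝ) / (p : ℝ) ^ 2 ≤ ∑ k ∈ Ioc 1 y, (1 : ℝ) / (k : ℝ) ^ 2 := by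
          refine sum_le_sum_of_subset_of_nonneg (fun p hp => ?_) fun _ _ _ => by positivity
          rw [mem_Pr] at hp
          rw [mem_Ioc]
          exact ⟨hp.1.one_lt, hp.2⟩
      _ ≤ 1 - 1 / y := h1 y hy
      _ ≤ 1 := by
          have : (0 : ℝ) ≤ 1 / y := by positivity
          linarith

theorem sum_pow_tail {p : ℝ} (hp : 2 ≤ p) (I : ℕ) : ∑ i ∈ Icc 2 I, 1 / p ^ i ≤ 2 / p ^ 2 := by
  have hp0 : 0 < p := by linarith
  have key : ∀ I : ℕ, 1 ≤ I → ∑ i ∈ Icc 2 I, 1 / p ^ i ≤ 2 / p ^ 2 - 1 / p ^ (I + 1) * 2 := by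
    intro I hI
    induction I, hI using Nat.le_induction with
    | base =>
      simp only [show Icc 2 1 = ∅ by simp, sum_empty]
      rw [show (1 : ℕ) + 1 = 2 by norm_num]
      apply le_of_eq; ring
    | succ n hn ih =>
      rw [← Finset.insert_Icc_right_eq_Icc_add_one (by omega), sum_insert (by simp)]
      have h1 : 1 / p ^ (n + 1 + 1) * 2 ≤ 1 / p ^ (n + 1) := by
        rw [pow_succ p (n + 1), div_mul_eq_mul_div, one_mul, div_le_div_iff₀ (by positivity) (by positivity)]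
        have : 0 < p ^ (n + 1) := by positivity
        nlinarith
      linarith
  rcases Nat.eq_zero_or_pos I with h | h
  · subst h; simp; positivity
  · refine (key I h).trans ?_
    have : 0 < 1 / p ^ (I + 1) * 2 := by positivity
    linarith

/-- the multiplicity part is bounded on average -/
theorem Sx_sum {y : ℕ} (hy : 5 ≤ y) :
    ∑ z ∈ box (y ^ 4), (Sx y (z.1 ^ 2 + z.2 ^ 2) : ℝ) ≤ 12 * ((y ^ 4 : ℕ) : ℝ) ^ 2 := by
  set N := y ^ 4 with hN
  have hyr : (5 : ℝ) ≤ y := by exact_mod_cast hy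
  have e1 : ∑ z ∈ box N, (Sx y (z.1 ^ 2 + z.2 ^ 2) : ℝ) =
      ∑ p ∈ Pr y, ((((box N).filter fun z => p ^ 2 ∣ z.1 ^ 2 + z.2 ^ 2).card : ℝ) +
        2 * ∑ i ∈ Icc 2 (4 * y), (((box N).filter fun z => p ^ (2 * i - 1) ∣ z.1 ^ 2 + z.2 ^ 2).card : ℝ)) := by
    simp only [Sx]
    push_cast
    rw [sum_comm]
    refine sum_congr rfl fun p _ => ?_
    rw [sum_add_distrib, ← mul_sum, sum_comm]
    congr 1
    · rw [card_filter]; push_cast; rfl
    · congr 1
      refine sum_congr rfl fun i _ => ?_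
      rw [card_filter]; push_cast; rfl
  rw [e1]
  have h1 : ∀ p ∈ Pr y, ((((box N).filter fun z => p ^ 2 ∣ z.1 ^ 2 + z.2 ^ 2).card : ℝ) +
        2 * ∑ i ∈ Icc 2 (4 * y), (((box N).filter fun z => p ^ (2 * i - 1) ∣ z.1 ^ 2 + z.2 ^ 2).card : ℝ)) ≤
      11 * (N : ℝ) ^ 2 * (1 / (p : ℝ) ^ 2) + 20 * y * N := by
    intro p hp
    rw [mem_Pr] at hp
    have hp2 : (2 : ℝ) ≤ p := by exact_mod_cast hp.1.two_le
    have hp0 : (0 : ℝ) < p := by linarith
    have a1 := sq_bound N hp.1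
    have a2 : ∑ i ∈ Icc 2 (4 * y), (((box N).filter fun z => p ^ (2 * i - 1) ∣ z.1 ^ 2 + z.2 ^ 2).card : ℝ) ≤
        ∑ i ∈ Icc 2 (4 * y), (2 * (N : ℝ) ^ 2 * (1 / (p : ℝ) ^ i) + 2 * N) := by
      refine sum_le_sum fun i hi => ?_
      rw [mem_Icc] at hi
      refine (odd_pow_bound N hp.1 (by omega)).trans (le_of_eq ?_)
      ring
    rw [sum_add_distrib, ← mul_sum, sum_const, nsmul_eq_mul] at a2
    have a3 := sum_pow_tail hp2 (4 * y)
    have a4 : ((Icc 2 (4 * y)).card : ℝ) ≤ 4 * y := by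
      rw [Nat.card_Icc]
      have : 4 * y + 1 - 2 ≤ 4 * y := by omega
      exact_mod_cast this
    have hN0 : (0 : ℝ) ≤ N := by positivity
    have a5 : 2 * (N : ℝ) ^ 2 * ∑ i ∈ Icc 2 (4 * y), 1 / (p : ℝ) ^ i ≤ 2 * (N : ℝ) ^ 2 * (2 / (p : ℝ) ^ 2) :=
      mul_le_mul_of_nonneg_left a3 (by positivity)
    have a6 : ((Icc 2 (4 * y)).card : ℝ) * (2 * N) ≤ 4 * y * (2 * N) := mul_le_mul_of_nonneg_right a4 (by positivity)
    have e2 : (N : ℝ) * (2 * ((N : ℝ) / (p : ℝ) ^ 2 + 1)) + ((N : ℝ) / p) ^ 2 =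
        3 * (N : ℝ) ^ 2 * (1 / (p : ℝ) ^ 2) + 2 * N := by
      rw [div_pow]; ring
    rw [e2] at a1
    have e3 : 2 * (N : ℝ) ^ 2 * (2 / (p : ℝ) ^ 2) = 4 * (N : ℝ) ^ 2 * (1 / (p : ℝ) ^ 2) := by ring
    rw [e3] at a5
    have a7 : (2 : ℝ) * N ≤ y * N := mul_le_mul_of_nonneg_right (by linarith) hN0
    have a8 : (0 : ℝ) ≤ y * N := by positivity
    linarith
  refine (sum_le_sum h1).trans ?_
  rw [sum_add_distrib, ← mul_sum, sum_const, nsmul_eq_mul]
  have h2 := sum_inv_sq y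
  have h3 : ((Pr y).card : ℝ) ≤ y := by exact_mod_cast card_Pr y
  have hN2 : (0 : ℝ) ≤ (N : ℝ) ^ 2 := by positivity
  have h4 : 11 * (N : ℝ) ^ 2 * ∑ p ∈ Pr y, 1 / (p : ℝ) ^ 2 ≤ 11 * (N : ℝ) ^ 2 * 1 :=
    mul_le_mul_of_nonneg_left h2 (by positivity)
  have h5 : ((Pr y).card : ℝ) * (20 * y * N) ≤ y * (20 * y * N) := mul_le_mul_of_nonneg_right h3 (by positivity)
  have h6 : (y : ℝ) * (20 * y * N) ≤ (N : ℝ) ^ 2 := by
    have e4 : (N : ℝ) = (y : ℝ) ^ 4 := by rw [hN]; push_cast; ring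
    have h7 : 20 * (y : ℝ) ^ 2 ≤ (y : ℝ) ^ 4 := by
      have : (25 : ℝ) ≤ (y : ℝ) ^ 2 := by nlinarith
      nlinarith
    have h8 : (0 : ℝ) ≤ N := by positivity
    calc (y : ℝ) * (20 * y * N) = 20 * (y : ℝ) ^ 2 * N := by ring
      _ ≤ (y : ℝ) ^ 4 * N := mul_le_mul_of_nonneg_right h7 h8
      _ = (N : ℝ) ^ 2 := by rw [← e4]; ring
  linarith

end Pool.Agent.Q183.Omg
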