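import Mathlib
import Pool.Agent.Q183.Omg.Mult

set_option autoImplicit false

/-!
# Concentration of `Ω (m ^ 2 + n ^ 2)`
-/

namespace Pool.Agent.Q183.Omg

open Finset Filter Topology

/-- the density of pairs with `p ∣ m ^ 2 + n ^ 2` -/
noncomputable def dn (p : ℕ) : ℝ := if h : p = 0 then 0 else haveI : NeZero p := ⟨h⟩; (rho p : ℝ) / (p : ℝ) ^ 2

theorem dn_eq (p : ℕ) [NeZero p] : dn p = (rho p : ℝ) / (p : ℝ) ^ 2 := by
  rw [dn, dif_neg (NeZero.ne p)]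

theorem dn_nonneg (p : ℕ) : 0 ≤ dn p := by
  unfold dn
  split_ifs
  · exact le_rfl
  · positivity

theorem dn_le_one {p : ℕ} (hp : p.Prime) : dn p ≤ 1 := by
  haveI : NeZero p := ⟨hp.ne_zero⟩
  rw [dn_eq, div_le_one (by have := hp.pos; positivity)]
  have h1 := rho_le hp
  have h2 := hp.two_le
  have h3 : rho p ≤ p ^ 2 := by nlinarith
  exact_mod_cast h3

/-- the centre -/
noncomputable def ctr (y : ℕ) : ℝ := ∑ p ∈ Pr y, dn p

theorem C_prime {N p : ℕ} (hp : p.Prime) (hpN : p ≤ N) : |(C N p : ℝ) - dn p * (N : ℝ) ^ 2| ≤ 6 * N := by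
  haveI : NeZero p := ⟨hp.ne_zero⟩
  have h1 := C_bound hp.pos hpN
  have hp0 : (0 : ℝ) < p := by exact_mod_cast hp.pos
  have e : dn p * (N : ℝ) ^ 2 = rho p * (N : ℝ) ^ 2 / (p : ℝ) ^ 2 := by rw [dn_eq]; ring
  rw [e]
  refine h1.trans ?_
  rw [div_le_iff₀ hp0]
  have h2 : (rho p : ℝ) ≤ 2 * p := by exact_mod_cast rho_le hp
  have hN : (0 : ℝ) ≤ N := by positivity
  nlinarith

theorem C_two {N p q : ℕ} (hp : p.Prime) (hq : q.Prime) (hpq : p ≠ q) (hN : p * q ≤ N) :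
    |(C N (p * q) : ℝ) - dn p * dn q * (N : ℝ) ^ 2| ≤ 12 * N := by
  haveI : NeZero p := ⟨hp.ne_zero⟩
  haveI : NeZero q := ⟨hq.ne_zero⟩
  haveI : NeZero (p * q) := ⟨mul_ne_zero hp.ne_zero hq.ne_zero⟩
  have h1 := C_bound (N := N) (Nat.mul_pos hp.pos hq.pos) hN
  have hp0 : (0 : ℝ) < p := by exact_mod_cast hp.pos
  have hq0 : (0 : ℝ) < q := by exact_mod_cast hq.pos
  have hr := rho_mul ((Nat.coprime_primes hp hq).mpr hpq)
  rw [hr] at h1
  have e : dn p * dn q * (N : ℝ) ^ 2 = ((rho p * rho q : ℕ) : ℝ) * (N : ℝ) ^ 2 / ((p * q : ℕ) : ℝ) ^ 2 := by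
    rw [dn_eq, dn_eq]; push_cast; field_simp
  rw [e]
  refine h1.trans ?_
  push_cast
  rw [div_le_iff₀ (by positivity)]
  have h2 : (rho p : ℝ) ≤ 2 * p := by exact_mod_cast rho_le hp
  have h3 : (rho q : ℝ) ≤ 2 * q := by exact_mod_cast rho_le hq
  have h4 : (rho p : ℝ) * rho q ≤ (2 * p) * (2 * q) := mul_le_mul h2 h3 (by positivity) (by positivity)
  have hN : (0 : ℝ) ≤ N := by positivity
  nlinarith

/-- indicator of divisibility -/
noncomputable def ind (p : ℕ) (z : ℕ × ℕ) : ℝ := if p ∣ z.1 ^ 2 + z.2 ^ 2 then 1 else 0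

theorem sum_ind (N p : ℕ) : ∑ z ∈ box N, ind p z = C N p := by
  rw [C, card_filter]
  push_cast
  rfl

theorem ind_mul {p q : ℕ} (hp : p.Prime) (hq : q.Prime) (hpq : p ≠ q) (z : ℕ × ℕ) :
    ind p z * ind q z = ind (p * q) z := by
  unfold ind
  have h : p * q ∣ z.1 ^ 2 + z.2 ^ 2 ↔ p ∣ z.1 ^ 2 + z.2 ^ 2 ∧ q ∣ z.1 ^ 2 + z.2 ^ 2 :=
    ⟨fun h => ⟨(dvd_mul_right _ _).trans h, (dvd_mul_left _ _).trans h⟩, fun h =>
      Nat.Coprime.mul_dvd_of_dvd_of_dvd ((Nat.coprime_primes hp hq).mpr hpq) h.1 h.2⟩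
  by_cases h1 : p ∣ z.1 ^ 2 + z.2 ^ 2 <;> by_cases h2 : q ∣ z.1 ^ 2 + z.2 ^ 2 <;> simp [h, h1, h2]

theorem ind_sq (p : ℕ) (z : ℕ × ℕ) : ind p z * ind p z = ind p z := by
  unfold ind
  split_ifs <;> norm_num

/-- The variance bound. -/
theorem variance {y : ℕ} (hy : 6 ≤ y) :
    ∑ z ∈ box (y ^ 4), ((om y (z.1 ^ 2 + z.2 ^ 2) : ℝ) - ctr y) ^ 2 ≤ (ctr y + 1) * ((y ^ 4 : ℕ) : ℝ) ^ 2 := by
  classical
  set N := y ^ 4 with hN
  have hy0 : 0 < y := by omega
  have hsq : y * y ≤ N := by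
    rw [hN]
    calc y * y = y ^ 2 := by ring
      _ ≤ y ^ 4 := Nat.pow_le_pow_right hy0 (by norm_num)
  have hyN : y ≤ N := le_trans (Nat.le_mul_of_pos_left y hy0) hsq
  have hN0 : (0 : ℝ) ≤ N := by positivity
  have hcard : ∑ _z ∈ box N, (1 : ℝ) = (N : ℝ) ^ 2 := by
    rw [sum_const, nsmul_eq_mul, mul_one, card_box]; push_cast; rfl
  have e1 : ∀ z : ℕ × ℕ, ((om y (z.1 ^ 2 + z.2 ^ 2) : ℝ) - ctr y) ^ 2 =
      ∑ p ∈ Pr y, ∑ q ∈ Pr y, (ind p z - dn p) * (ind q z - dn q) := by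
    intro z
    have : (om y (z.1 ^ 2 + z.2 ^ 2) : ℝ) - ctr y = ∑ p ∈ Pr y, (ind p z - dn p) := by
      rw [sum_sub_distrib, ctr, om]
      push_cast
      rfl
    rw [this, sq, sum_mul_sum]
  simp_rw [e1]
  rw [sum_comm]
  have e2 : ∀ p ∈ Pr y, ∑ z ∈ box N, ∑ q ∈ Pr y, (ind p z - dn p) * (ind q z - dn q) ≤
      dn p * (N : ℝ) ^ 2 + 6 * N + 24 * N * y := by
    intro p hp
    have hp' := mem_Pr.mp hp
    rw [sum_comm]
    rw [← add_sum_erase _ _ hp]
    have hCp := C_prime (N := N) hp'.1 (hp'.2.trans hyN)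
    have h1 : ∑ z ∈ box N, (ind p z - dn p) * (ind p z - dn p) ≤ dn p * (N : ℝ) ^ 2 + 6 * N := by
      have e3 : ∑ z ∈ box N, (ind p z - dn p) * (ind p z - dn p) =
          (1 - 2 * dn p) * C N p + dn p ^ 2 * (N : ℝ) ^ 2 := by
        rw [← sum_ind, ← hcard, mul_sum, mul_sum, ← sum_add_distrib]
        refine sum_congr rfl fun z _ => ?_
        have := ind_sq p z
        linear_combination this
      rw [e3]
      have h2 := abs_le.mp hCp
      have h3 := dn_nonneg p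
      have h4 := dn_le_one hp'.1
      have hN2 : (0 : ℝ) ≤ (N : ℝ) ^ 2 := by positivity
      set t := (C N p : ℝ) - dn p * (N : ℝ) ^ 2 with ht
      have e4 : (C N p : ℝ) = t + dn p * (N : ℝ) ^ 2 := by rw [ht]; ring
      rw [e4]
      have h5 : (1 - 2 * dn p) * t ≤ 6 * N := by
        have : |(1 - 2 * dn p) * t| ≤ 1 * (6 * N) := by
          rw [abs_mul]
          refine mul_le_mul ?_ hCp (abs_nonneg _) (by norm_num)
          rw [abs_le]; constructor <;> linarith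
        have h6 := le_abs_self ((1 - 2 * dn p) * t)
        linarith
      have h6 : 0 ≤ dn p ^ 2 * (N : ℝ) ^ 2 := by positivity
      nlinarith
    have h2 : ∑ q ∈ (Pr y).erase p, ∑ z ∈ box N, (ind p z - dn p) * (ind q z - dn q) ≤ 24 * N * y := by
      have h3 : ∀ q ∈ (Pr y).erase p, ∑ z ∈ box N, (ind p z - dn p) * (ind q z - dn q) ≤ 24 * N := by
        intro q hq
        rw [mem_erase] at hq
        have hq' := mem_Pr.mp hq.2
        have hCq := C_prime (N := N) hq'.1 (hq'.2.trans hyN)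
        have hpqN : p * q ≤ N := (Nat.mul_le_mul hp'.2 hq'.2).trans hsq
        have hCpq := C_two (N := N) hp'.1 hq'.1 (Ne.symm hq.1) hpqN
        have e3 : ∑ z ∈ box N, (ind p z - dn p) * (ind q z - dn q) =
            C N (p * q) - dn p * C N q - dn q * C N p + dn p * dn q * (N : ℝ) ^ 2 := by
          rw [← sum_ind, ← sum_ind, ← sum_ind, ← hcard, mul_sum, mul_sum, mul_sum, ← sum_sub_distrib,
            ← sum_sub_distrib, ← sum_add_distrib]
          refine sum_congr rfl fun z _ => ?_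
          have := ind_mul hp'.1 hq'.1 (Ne.symm hq.1) z
          linear_combination this
        rw [e3]
        have a1 := (abs_le.mp hCpq).2
        have a2 := (abs_le.mp hCq).1
        have a3 := (abs_le.mp hCp).1
        have b1 := dn_nonneg p
        have b2 := dn_nonneg q
        have b3 := dn_le_one hp'.1
        have b4 := dn_le_one hq'.1
        have c1 : dn p * (dn q * (N : ℝ) ^ 2 - C N q) ≤ 6 * N := by
          have : dn q * (N : ℝ) ^ 2 - C N q ≤ 6 * N := by linarith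
          nlinarith
        have c2 : dn q * (dn p * (N : ℝ) ^ 2 - C N p) ≤ 6 * N := by
          have : dn p * (N : ℝ) ^ 2 - C N p ≤ 6 * N := by linarith
          nlinarith
        nlinarith
      refine (sum_le_sum h3).trans ?_
      rw [sum_const, nsmul_eq_mul]
      have h4 : (((Pr y).erase p).card : ℝ) ≤ y := by
        exact_mod_cast (card_erase_le).trans (card_Pr y)
      nlinarith
    linarith
  refine (sum_le_sum e2).trans ?_
  rw [sum_add_distrib, sum_add_distrib, ← sum_mul, ← ctr, sum_const, sum_const, nsmul_eq_mul, nsmul_eq_mul]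
  have h3 : ((Pr y).card : ℝ) ≤ y := by exact_mod_cast card_Pr y
  have hyr : (6 : ℝ) ≤ y := by exact_mod_cast hy
  have h4 : ((Pr y).card : ℝ) * (6 * N) ≤ y * (6 * N) := mul_le_mul_of_nonneg_right h3 (by positivity)
  have h5 : ((Pr y).card : ℝ) * (24 * N * y) ≤ y * (24 * N * y) := mul_le_mul_of_nonneg_right h3 (by positivity)
  have e4 : (N : ℝ) = (y : ℝ) ^ 4 := by rw [hN]; push_cast; ring
  have h6 : 6 * (y : ℝ) + 24 * (y : ℝ) ^ 2 ≤ (y : ℝ) ^ 4 := by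
    have : (36 : ℝ) ≤ (y : ℝ) ^ 2 := by nlinarith
    nlinarith
  have h7 : (6 * (y : ℝ) + 24 * (y : ℝ) ^ 2) * N ≤ (N : ℝ) ^ 2 := by
    calc (6 * (y : ℝ) + 24 * (y : ℝ) ^ 2) * N ≤ (y : ℝ) ^ 4 * N := mul_le_mul_of_nonneg_right h6 hN0
      _ = (N : ℝ) ^ 2 := by rw [← e4]; ring
  linarith

theorem ctr_step (y : ℕ) : ctr (y + 1) ≤ ctr y + 1 := by
  have h : Pr (y + 1) ⊆ insert (y + 1) (Pr y) := by
    intro p hp
    rw [mem_Pr] at hp
    rw [mem_insert, mem_Pr]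
    rcases hp.2.lt_or_eq with h | h
    · right; exact ⟨hp.1, by omega⟩
    · left; exact h
  by_cases hp : (y + 1).Prime
  · have h1 : ctr (y + 1) ≤ ∑ p ∈ insert (y + 1) (Pr y), dn p :=
      sum_le_sum_of_subset_of_nonneg h fun _ _ _ => dn_nonneg _
    rw [sum_insert (by rw [mem_Pr]; omega)] at h1
    have := dn_le_one hp
    rw [ctr, ctr] at *
    linarith
  · have h2 : Pr (y + 1) ⊆ Pr y := by
      intro p hp'
      rcases mem_insert.mp (h hp') with h3 | h3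
      · rw [h3] at hp'
        exact absurd (mem_Pr.mp hp').1 hp
      · exact h3
    have h1 : ctr (y + 1) ≤ ctr y := sum_le_sum_of_subset_of_nonneg h2 fun _ _ _ => dn_nonneg _
    linarith

theorem ctr_tendsto : Tendsto ctr atTop atTop := by
  have h1 := (not_summable_iff_tendsto_nat_atTop_of_nonneg (f := fun n : ℕ =>
    if n.Prime ∧ ((n : ZMod 4) = 1) then (1 : ℝ) / n else 0) (fun n => by split_ifs <;> positivity)).mp
    Pool.Agent.H256R3.OM.not_summable_primes_one_mod_four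
  have h2 : Tendsto (fun y : ℕ => ∑ n ∈ range (y + 1),
      if n.Prime ∧ ((n : ZMod 4) = 1) then (1 : ℝ) / n else 0) atTop atTop := h1.comp (tendsto_add_atTop_nat 1)
  refine tendsto_atTop_mono (fun y => ?_) h2
  rw [← sum_filter]
  calc ∑ n ∈ (range (y + 1)).filter (fun n : ℕ => n.Prime ∧ ((n : ZMod 4) = 1)), (1 : ℝ) / n
      ≤ ∑ n ∈ (range (y + 1)).filter (fun n : ℕ => n.Prime ∧ ((n : ZMod 4) = 1)), dn n := by
        refine sum_le_sum fun p hp => ?_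
        rw [mem_filter] at hp
        haveI : NeZero p := ⟨hp.2.1.ne_zero⟩
        have hp0 : (0 : ℝ) < p := by exact_mod_cast hp.2.1.pos
        rw [dn_eq, div_le_div_iff₀ hp0 (by positivity)]
        have : (p : ℝ) ≤ rho p := by exact_mod_cast rho_ge hp.2.1 hp.2.2
        nlinarith
    _ ≤ ctr y := by
        refine sum_le_sum_of_subset_of_nonneg (fun p hp => ?_) fun _ _ _ => dn_nonneg _
        rw [mem_filter, mem_range] at hp
        rw [mem_Pr]
        exact ⟨hp.2.1, by omega⟩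

/-- Concentration of `Ω (m ^ 2 + n ^ 2)` on the boxes of size `y ^ 4`. -/
theorem conc (ε : ℝ) (hε : 0 < ε) : ∃ Y, ∀ y, Y ≤ y →
    (((box (y ^ 4)).filter fun p : ℕ × ℕ => ¬ |(ArithmeticFunction.cardFactors (p.1 ^ 2 + p.2 ^ 2) : ℝ) - ctr y| ≤
      ε * ctr y).card : ℝ) ≤ ε * ((y ^ 4 : ℕ) : ℝ) ^ 2 := by
  classical
  set c : ℝ := 24 / ε + 1 / ε + 72 / ε ^ 2 + 8 * 9 / ε ^ 3 + 1 with hc
  obtain ⟨Y, hY⟩ := eventually_atTop.mp (ctr_tendsto.eventually_ge_atTop c)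
  refine ⟨max Y 6, fun y hy => ?_⟩
  have hy6 : 6 ≤ y := (le_max_right _ _).trans hy
  have hM := hY y ((le_max_left _ _).trans hy)
  set M := ctr y with hMd
  set N := y ^ 4 with hN
  have p1 : 0 < 24 / ε := by positivity
  have p2 : 0 < 1 / ε := by positivity
  have p3 : 0 < 72 / ε ^ 2 := by positivity
  have p4 : 0 < 8 * 9 / ε ^ 3 := by positivity
  have hM1 : 1 ≤ M := by linarith
  have hM0 : 0 < M := by linarith
  have hN2 : (0 : ℝ) < (N : ℝ) ^ 2 := by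
    have : 0 < N := by rw [hN]; positivity
    positivity
  -- the two exceptional sets
  set A := (box N).filter fun z : ℕ × ℕ => ε / 3 * M < |(om y (z.1 ^ 2 + z.2 ^ 2) : ℝ) - M| with hA
  set B := (box N).filter fun z : ℕ × ℕ => ε / 3 * M < (Sx y (z.1 ^ 2 + z.2 ^ 2) : ℝ) with hB
  have hAc : (A.card : ℝ) ≤ ε / 2 * (N : ℝ) ^ 2 := by
    have h1 : ∑ z ∈ A, (ε / 3 * M) ^ 2 ≤ (M + 1) * (N : ℝ) ^ 2 := by
      refine le_trans ?_ (variance hy6)
      calc ∑ z ∈ A, (ε / 3 * M) ^ 2 ≤ ∑ z ∈ A, ((om y (z.1 ^ 2 + z.2 ^ 2) : ℝ) - M) ^ 2 := by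
            refine sum_le_sum fun z hz => ?_
            rw [hA, mem_filter] at hz
            rw [← sq_abs ((om y (z.1 ^ 2 + z.2 ^ 2) : ℝ) - M)]
            exact pow_le_pow_left₀ (by positivity) hz.2.le 2
        _ ≤ _ := sum_le_sum_of_subset_of_nonneg (filter_subset _ _) fun _ _ _ => sq_nonneg _
    rw [sum_const, nsmul_eq_mul] at h1
    have h2 : (M + 1) * (N : ℝ) ^ 2 ≤ ε / 2 * (N : ℝ) ^ 2 * (ε / 3 * M) ^ 2 := by
      have h3 : M + 1 ≤ ε / 2 * (ε / 3 * M) ^ 2 := by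
        have h4 : 8 * 9 / ε ^ 3 ≤ M := by linarith
        rw [div_le_iff₀ (by positivity)] at h4
        have e : ε / 2 * (ε / 3 * M) ^ 2 = M * (M * ε ^ 3) / 18 := by ring
        rw [e]
        nlinarith
      nlinarith
    have h4 : 0 < (ε / 3 * M) ^ 2 := by positivity
    exact le_of_mul_le_mul_right (h1.trans h2) h4
  have hBc : (B.card : ℝ) ≤ ε / 2 * (N : ℝ) ^ 2 := by
    have h1 : ∑ z ∈ B, (ε / 3 * M) ≤ 12 * (N : ℝ) ^ 2 := by
      refine le_trans ?_ (Sx_sum (by omega : 5 ≤ y))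
      calc ∑ z ∈ B, (ε / 3 * M) ≤ ∑ z ∈ B, (Sx y (z.1 ^ 2 + z.2 ^ 2) : ℝ) := by
            refine sum_le_sum fun z hz => ?_
            rw [hB, mem_filter] at hz
            exact hz.2.le
        _ ≤ _ := sum_le_sum_of_subset_of_nonneg (filter_subset _ _) fun _ _ _ => by positivity
    rw [sum_const, nsmul_eq_mul] at h1
    have h2 : 12 * (N : ℝ) ^ 2 ≤ ε / 2 * (N : ℝ) ^ 2 * (ε / 3 * M) := by
      have h4 : 72 / ε ^ 2 ≤ M := by linarith
      rw [div_le_iff₀ (by positivity)] at h4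
      have h5 : 12 ≤ ε / 2 * (ε / 3 * M) := by
        have e : ε / 2 * (ε / 3 * M) = M * ε ^ 2 / 6 := by ring
        rw [e]; linarith
      have e : ε / 2 * (N : ℝ) ^ 2 * (ε / 3 * M) = (ε / 2 * (ε / 3 * M)) * (N : ℝ) ^ 2 := by ring
      rw [e]
      exact mul_le_mul_of_nonneg_right h5 hN2.le
    have h4 : 0 < ε / 3 * M := by positivity
    exact le_of_mul_le_mul_right (h1.trans h2) h4
  have hsub : (box N).filter (fun p : ℕ × ℕ =>
      ¬ |(ArithmeticFunction.cardFactors (p.1 ^ 2 + p.2 ^ 2) : ℝ) - M| ≤ ε * M) ⊆ A ∪ B := by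
    intro z hz
    rw [mem_filter] at hz
    by_contra hcon
    rw [mem_union, not_or, hA, hB, mem_filter, mem_filter] at hcon
    have h1 : ¬ ε / 3 * M < |(om y (z.1 ^ 2 + z.2 ^ 2) : ℝ) - M| := fun h => hcon.1 ⟨hz.1, h⟩
    have h2 : ¬ ε / 3 * M < (Sx y (z.1 ^ 2 + z.2 ^ 2) : ℝ) := fun h => hcon.2 ⟨hz.1, h⟩
    rw [not_lt] at h1 h2
    apply hz.2
    have hz1 := hz.1
    simp only [box, mem_product, mem_Icc] at hz1
    have hk : z.1 ^ 2 + z.2 ^ 2 ≠ 0 := by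
      have : 0 < z.1 ^ 2 := pow_pos (by omega) 2
      omega
    have hky : z.1 ^ 2 + z.2 ^ 2 ≤ 2 * y ^ 8 := by
      have a1 : z.1 ^ 2 ≤ N ^ 2 := Nat.pow_le_pow_left hz1.1.2 2
      have a2 : z.2 ^ 2 ≤ N ^ 2 := Nat.pow_le_pow_left hz1.2.2 2
      have a3 : N ^ 2 = y ^ 8 := by rw [hN, ← pow_mul]
      omega
    obtain ⟨b1, b2⟩ := Omega_bounds (y := y) (by omega) hk hky
    have b1' : (om y (z.1 ^ 2 + z.2 ^ 2) : ℝ) ≤ ArithmeticFunction.cardFactors (z.1 ^ 2 + z.2 ^ 2) := by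
      exact_mod_cast b1
    have b2' : (ArithmeticFunction.cardFactors (z.1 ^ 2 + z.2 ^ 2) : ℝ) ≤
        om y (z.1 ^ 2 + z.2 ^ 2) + Sx y (z.1 ^ 2 + z.2 ^ 2) + 8 := by exact_mod_cast b2
    have h3 := abs_le.mp h1
    have h4 : 8 ≤ ε / 3 * M := by
      have : 24 / ε ≤ M := by linarith
      rw [div_le_iff₀ hε] at this
      linarith
    rw [abs_le]
    constructor <;> linarith
  have h1 : (((box N).filter (fun p : ℕ × ℕ =>
      ¬ |(ArithmeticFunction.cardFactors (p.1 ^ 2 + p.2 ^ 2) : ℝ) - M| ≤ ε * M)).card : ℝ) ≤ A.card + B.card := by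
    exact_mod_cast (card_le_card hsub).trans (card_union_le _ _)
  linarith

end Pool.Agent.Q183.Omg
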