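import Mathlib
import Pool.Agent.Q183.Omg.Core

set_option autoImplicit false

/-!
# Strong sweeping out along concentrated weights
-/

namespace Pool.Agent.Q183.Omg

open MeasureTheory Filter Topology Set
open scoped ENNReal

variable {X : Type*} [MeasurableSpace X] {μ : Measure X} [IsProbabilityMeasure μ] {T : X → X}

/-- an upper bound for `g` on the boxes of size `S y`, `y ≤ Y` -/
def bd (g : ℕ × ℕ → ℕ) (S : ℕ → ℕ) (Y : ℕ) : ℕ := (Finset.range (Y + 1)).sup fun y => (box (S y)).sup g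

theorem le_bd (g : ℕ × ℕ → ℕ) (S : ℕ → ℕ) {Y y : ℕ} (hy : y ≤ Y) {p : ℕ × ℕ} (hp : p ∈ box (S y)) :
    g p ≤ bd g S Y :=
  (Finset.le_sup hp).trans (Finset.le_sup (f := fun y => (box (S y)).sup g) (Finset.mem_range.mpr (by omega)))

theorem bd_mono (g : ℕ × ℕ → ℕ) (S : ℕ → ℕ) : Monotone (bd g S) := by
  intro a b hab
  exact Finset.sup_mono (Finset.range_mono (by omega))

/-- tolerance of a stage -/
noncomputable def tol (g : ℕ × ℕ → ℕ) (S : ℕ → ℕ) (i Y : ℕ) : ℝ := (1 / 2) ^ (i + 2) / (bd g S Y + 1)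

theorem tol_pos (g : ℕ × ℕ → ℕ) (S : ℕ → ℕ) (i Y : ℕ) : 0 < tol g S i Y := by
  unfold tol; positivity

theorem tol_le (g : ℕ × ℕ → ℕ) (S : ℕ → ℕ) (i Y : ℕ) : tol g S i Y ≤ (1 / 2) ^ (i + 2) := by
  unfold tol
  apply div_le_self (by positivity)
  have : (0 : ℝ) ≤ bd g S Y := by positivity
  linarith

theorem stages (hT : Ergodic T μ) (hsmall : ∀ η : ℝ≥0∞, 0 < η → ∃ B, MeasurableSet B ∧ 0 < μ B ∧ μ B < η)
    (g : ℕ × ℕ → ℕ) (M : ℕ → ℝ) (S : ℕ → ℕ) (hM : Tendsto M atTop atTop) (hstep : ∀ y, M (y + 1) ≤ M y + 1)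
    (hconc : ∀ ε : ℝ, 0 < ε → ∃ Y, ∀ y, Y ≤ y →
      (((box (S y)).filter fun p => ¬ |(g p : ℝ) - M y| ≤ ε * M y).card : ℝ) ≤ ε * (S y : ℝ) ^ 2) :
    ∃ (E : ℕ → Set X) (Y : ℕ → ℕ), Monotone Y ∧ (∀ i, MeasurableSet (E i)) ∧
      (∀ i, μ (E i) ≤ ENNReal.ofReal (tol g S i (Y i))) ∧
      ∀ i, μ {x | ∀ y, i ≤ y → y ≤ Y (i + 1) → (hits T g (S y) (E i) x : ℝ) < (1 - (1 / 2) ^ (i + 2)) * (S y : ℝ) ^ 2} ≤
        ENNReal.ofReal ((1 / 2) ^ (i + 2)) := by
  have h := fun (i Y : ℕ) => core hT hsmall g M S hM hstep hconc (tol_pos g S i Y) (max Y i)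
  choose E hE1 hE2 Y₁ hY1 hY2 using h
  let Y : ℕ → ℕ := fun i => Nat.rec 0 (fun i y => Y₁ i y) i
  have hYs : ∀ i, Y (i + 1) = Y₁ i (Y i) := fun i => rfl
  refine ⟨fun i => E i (Y i), Y, ?_, fun i => hE1 i _, fun i => hE2 i _, fun i => ?_⟩
  · apply monotone_nat_of_le_succ
    intro i
    rw [hYs]
    exact (le_max_left _ _).trans (hY1 i (Y i))
  · refine (measure_mono ?_).trans ((hY2 i (Y i)).trans (ENNReal.ofReal_le_ofReal (tol_le g S i (Y i))))
    intro x hx y hy1 hy2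
    have h1 := hx y ((le_max_right _ _).trans hy1) (by rw [hYs]; exact hy2)
    have h2 := tol_le g S i (Y i)
    have h3 : (0 : ℝ) ≤ (S y : ℝ) ^ 2 := by positivity
    nlinarith

/-- later stages -/
def later (E : ℕ → Set X) (j : ℕ) : Set X := ⋃ i : ℕ, ⋃ _ : j < i, E i

theorem mem_later {E : ℕ → Set X} {j : ℕ} {x : X} : x ∈ later E j ↔ ∃ i, j < i ∧ x ∈ E i := by
  simp [later]

/-- the final set: the even stages, corrected by the later odd stages -/
def fin (E : ℕ → Set X) : Set X := {x | ∃ j, Even j ∧ x ∈ E j ∧ ∀ i, j < i → ¬ Even i → x ∉ E i}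

theorem mem_fin {E : ℕ → Set X} {j : ℕ} {x : X} (hx : x ∈ E j) (hl : x ∉ later E j) : x ∈ fin E ↔ Even j := by
  have hl' : ∀ i, j < i → x ∉ E i := fun i hi hxi => hl (mem_later.mpr ⟨i, hi, hxi⟩)
  constructor
  · rintro ⟨i, hi, hxi, hodd⟩
    rcases lt_trichotomy i j with h | h | h
    · by_contra hj
      exact hodd j h hj hx
    · exact h ▸ hi
    · exact absurd hxi (hl' i h)
  · intro hj
    exact ⟨j, hj, hx, fun i hi _ => hl' i hi⟩

theorem measurableSet_fin {E : ℕ → Set X} (hE : ∀ i, MeasurableSet (E i)) : MeasurableSet (fin E) := by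
  have : fin E = ⋃ j : ℕ, ⋃ _ : Even j, (E j ∩ ⋂ i : ℕ, ⋂ _ : j < i, ⋂ _ : ¬ Even i, (E i)ᶜ) := by
    ext x
    simp only [fin, mem_ofPred_eq, mem_iUnion, mem_inter_iff, mem_iInter, mem_compl_iff, exists_prop]
  rw [this]
  refine MeasurableSet.iUnion fun j => MeasurableSet.iUnion fun _ => (hE j).inter ?_
  exact MeasurableSet.iInter fun i => MeasurableSet.iInter fun _ => MeasurableSet.iInter fun _ => (hE i).compl

theorem sum_tail (j : ℕ) : ∑' i : ℕ, (if j < i then ENNReal.ofReal ((1 / 2) ^ (i + 2)) else 0) ≤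
    ENNReal.ofReal ((1 / 2) ^ (j + 2)) := by
  have h1 : ∀ i : ℕ, (if j < i then ENNReal.ofReal ((1 / 2 : ℝ) ^ (i + 2)) else 0) =
      ENNReal.ofReal (if j < i then (1 / 2 : ℝ) ^ (i + 2) else 0) := by
    intro i
    split_ifs <;> simp
  simp_rw [h1]
  have hs : Summable fun i : ℕ => (1 / 2 : ℝ) ^ (i + 2) :=
    ((summable_geometric_of_lt_one (by norm_num) (by norm_num : (1 / 2 : ℝ) < 1)).mul_right ((1 / 2 : ℝ) ^ 2)).congr
      fun i => by rw [pow_add]
  have hs2 : Summable fun i : ℕ => (if j < i then (1 / 2 : ℝ) ^ (i + 2) else 0) := by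
    refine Summable.of_nonneg_of_le (fun i => ?_) (fun i => ?_) hs
    · split_ifs <;> positivity
    · split_ifs
      · exact le_rfl
      · positivity
  rw [← ENNReal.ofReal_tsum_of_nonneg _ hs2]
  · apply ENNReal.ofReal_le_ofReal
    rw [← hs2.sum_add_tsum_nat_add (j + 1)]
    have e1 : ∑ i ∈ Finset.range (j + 1), (if j < i then (1 / 2 : ℝ) ^ (i + 2) else 0) = 0 := by
      apply Finset.sum_eq_zero
      intro i hi
      rw [Finset.mem_range] at hi
      rw [if_neg (by omega)]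
    have e2 : ∀ i : ℕ, (if j < i + (j + 1) then (1 / 2 : ℝ) ^ (i + (j + 1) + 2) else 0) =
        (1 / 2 : ℝ) ^ i * (1 / 2) ^ (j + 3) := by
      intro i
      rw [if_pos (by omega), ← pow_add]
      congr 1
    rw [e1, zero_add]
    simp_rw [e2]
    rw [tsum_mul_right, tsum_geometric_of_lt_one (by norm_num) (by norm_num)]
    rw [show j + 3 = (j + 2) + 1 by ring, pow_succ]
    linarith
  · intro i
    split_ifs <;> positivity

/-- Strong sweeping out for iterates `T^[g p]` with concentrated `g`. -/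
theorem sweeping (hT : Ergodic T μ) (hsmall : ∀ η : ℝ≥0∞, 0 < η → ∃ B, MeasurableSet B ∧ 0 < μ B ∧ μ B < η)
    (g : ℕ × ℕ → ℕ) (M : ℕ → ℝ) (S : ℕ → ℕ) (hM : Tendsto M atTop atTop) (hstep : ∀ y, M (y + 1) ≤ M y + 1)
    (hconc : ∀ ε : ℝ, 0 < ε → ∃ Y, ∀ y, Y ≤ y →
      (((box (S y)).filter fun p => ¬ |(g p : ℝ) - M y| ≤ ε * M y).card : ℝ) ≤ ε * (S y : ℝ) ^ 2) :
    ∃ A : Set X, MeasurableSet A ∧ ∀ᵐ x ∂μ,
      (∀ ε : ℝ, 0 < ε → ∀ y₀, ∃ y, y₀ ≤ y ∧ (1 - ε) * (S y : ℝ) ^ 2 ≤ hits T g (S y) A x) ∧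
      (∀ ε : ℝ, 0 < ε → ∀ y₀, ∃ y, y₀ ≤ y ∧ (hits T g (S y) A x : ℝ) ≤ ε * (S y : ℝ) ^ 2) := by
  classical
  obtain ⟨E, Y, hYm, hEm, hEμ, hEs⟩ := stages hT hsmall g M S hM hstep hconc
  have hTm : Measurable T := hT.toMeasurePreserving.measurable
  refine ⟨fin E, measurableSet_fin hEm, ?_⟩
  -- bad sets
  set bad : ℕ → Set X := fun j =>
    {x | ∀ y, j ≤ y → y ≤ Y (j + 1) → (hits T g (S y) (E j) x : ℝ) < (1 - (1 / 2) ^ (j + 2)) * (S y : ℝ) ^ 2} ∪
      ⋃ k ∈ Finset.range (bd g S (Y (j + 1)) + 1), (T^[k]) ⁻¹' (later E j) with hbad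
  have hlater : ∀ j, μ (later E j) ≤ ENNReal.ofReal ((1 / 2) ^ (j + 2) / (bd g S (Y (j + 1)) + 1)) := by
    intro j
    have h1 : μ (later E j) ≤ ∑' i : ℕ, μ (⋃ _ : j < i, E i) := measure_iUnion_le _
    refine h1.trans ?_
    have h2 : ∀ i : ℕ, μ (⋃ _ : j < i, E i) ≤
        (if j < i then ENNReal.ofReal ((1 / 2) ^ (i + 2)) else 0) * ENNReal.ofReal (1 / (bd g S (Y (j + 1)) + 1)) := by
      intro i
      by_cases hij : j < i
      · simp only [hij, iUnion_true, if_true]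
        refine (hEμ i).trans ?_
        rw [← ENNReal.ofReal_mul (by positivity)]
        apply ENNReal.ofReal_le_ofReal
        unfold tol
        rw [mul_one_div]
        have h3 : (bd g S (Y (j + 1)) : ℝ) ≤ bd g S (Y i) := by
          exact_mod_cast bd_mono g S (hYm (by omega : j + 1 ≤ i))
        have h4 : (0 : ℝ) ≤ bd g S (Y (j + 1)) := by positivity
        exact div_le_div_of_nonneg_left (by positivity) (by linarith) (by linarith)
      · simp [hij]
    refine (ENNReal.tsum_le_tsum h2).trans ?_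
    rw [ENNReal.tsum_mul_right]
    refine (mul_le_mul_left (sum_tail j) _).trans ?_
    rw [← ENNReal.ofReal_mul (by positivity), mul_one_div]
  have hbadμ : ∀ j, μ (bad j) ≤ ENNReal.ofReal ((1 / 2) ^ (j + 1)) := by
    intro j
    refine (measure_union_le _ _).trans ?_
    have h1 : μ (⋃ k ∈ Finset.range (bd g S (Y (j + 1)) + 1), (T^[k]) ⁻¹' (later E j)) ≤
        ENNReal.ofReal ((1 / 2) ^ (j + 2)) := by
      refine (measure_biUnion_finset_le _ _).trans ?_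
      have hlm : MeasurableSet (later E j) := MeasurableSet.iUnion fun i => MeasurableSet.iUnion fun _ => hEm i
      have h2 : ∀ k ∈ Finset.range (bd g S (Y (j + 1)) + 1), μ ((T^[k]) ⁻¹' (later E j)) ≤
          ENNReal.ofReal ((1 / 2) ^ (j + 2) / (bd g S (Y (j + 1)) + 1)) := fun k _ => by
        rw [measure_preimage_iterate hT.toMeasurePreserving hlm]
        exact hlater j
      refine (Finset.sum_le_sum h2).trans ?_
      rw [Finset.sum_const, Finset.card_range, nsmul_eq_mul, ← ENNReal.ofReal_natCast (bd g S (Y (j + 1)) + 1),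
        ← ENNReal.ofReal_mul (by positivity)]
      apply ENNReal.ofReal_le_ofReal
      push_cast
      have : ((bd g S (Y (j + 1)) : ℝ) + 1) ≠ 0 := by positivity
      rw [mul_div_cancel₀ _ this]
    calc _ ≤ ENNReal.ofReal ((1 / 2) ^ (j + 2)) + ENNReal.ofReal ((1 / 2) ^ (j + 2)) := add_le_add (hEs j) h1
      _ = ENNReal.ofReal ((1 / 2) ^ (j + 1)) := by
        rw [← ENNReal.ofReal_add (by positivity) (by positivity)]
        congr 1
        rw [show j + 2 = (j + 1) + 1 by ring, pow_succ]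
        ring
  have hsum : ∑' j, μ (bad j) ≠ ∞ := by
    refine ne_top_of_le_ne_top ?_ (ENNReal.tsum_le_tsum hbadμ)
    have hs : Summable fun i : ℕ => (1 / 2 : ℝ) ^ (i + 1) :=
      ((summable_geometric_of_lt_one (by norm_num) (by norm_num : (1 / 2 : ℝ) < 1)).mul_right (1 / 2 : ℝ)).congr
        fun i => by rw [pow_succ]
    rw [← ENNReal.ofReal_tsum_of_nonneg (fun i => by positivity) hs]
    exact ENNReal.ofReal_ne_top
  filter_upwards [ae_eventually_notMem hsum] with x hx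
  obtain ⟨j₀, hj₀⟩ := eventually_atTop.mp hx
  -- key property of the good stages
  have key : ∀ j, j₀ ≤ j → ∃ y, j ≤ y ∧ (1 - (1 / 2) ^ (j + 2)) * (S y : ℝ) ^ 2 ≤ hits T g (S y) (E j) x ∧
      ∀ p ∈ box (S y), T^[g p] x ∉ later E j := by
    intro j hj
    have h1 := hj₀ j hj
    simp only [hbad, mem_union, not_or] at h1
    obtain ⟨h2, h3⟩ := h1
    simp only [mem_ofPred_eq, not_forall, not_lt] at h2
    obtain ⟨y, hy1, hy2, hy3⟩ := h2
    refine ⟨y, hy1, hy3, fun p hp hmem => h3 ?_⟩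
    simp only [mem_iUnion]
    exact ⟨g p, Finset.mem_range.mpr (Nat.lt_succ_of_le (le_bd g S hy2 hp)), hmem⟩
  have hpow : ∀ ε : ℝ, 0 < ε → ∃ n₀ : ℕ, ∀ j, n₀ ≤ j → (1 / 2 : ℝ) ^ (j + 2) ≤ ε := by
    intro ε hε
    obtain ⟨n₀, hn₀⟩ := exists_pow_lt_of_lt_one hε (by norm_num : (1 / 2 : ℝ) < 1)
    refine ⟨n₀, fun j hj => ?_⟩
    refine (pow_le_pow_of_le_one (by norm_num) (by norm_num) (by omega : n₀ ≤ j + 2)).trans hn₀.le
  constructor
  · intro ε hε y₀
    obtain ⟨n₀, hn₀⟩ := hpow ε hε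
    obtain ⟨y, hy1, hy2, hy3⟩ := key (2 * (j₀ + n₀ + y₀)) (by omega)
    refine ⟨y, by omega, ?_⟩
    have h1 : hits T g (S y) (E (2 * (j₀ + n₀ + y₀))) x ≤ hits T g (S y) (fin E) x := by
      unfold hits
      apply Finset.card_le_card
      intro p hp
      rw [Finset.mem_filter] at hp ⊢
      exact ⟨hp.1, (mem_fin hp.2 (hy3 p hp.1)).mpr (even_two_mul _)⟩
    have h2 : (hits T g (S y) (E (2 * (j₀ + n₀ + y₀))) x : ℝ) ≤ hits T g (S y) (fin E) x := by exact_mod_cast h1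
    have h3 := hn₀ (2 * (j₀ + n₀ + y₀)) (by omega)
    have h4 : (0 : ℝ) ≤ (S y : ℝ) ^ 2 := by positivity
    nlinarith
  · intro ε hε y₀
    obtain ⟨n₀, hn₀⟩ := hpow ε hε
    obtain ⟨y, hy1, hy2, hy3⟩ := key (2 * (j₀ + n₀ + y₀) + 1) (by omega)
    refine ⟨y, by omega, ?_⟩
    have h1 : hits T g (S y) (fin E) x + hits T g (S y) (E (2 * (j₀ + n₀ + y₀) + 1)) x ≤ (S y) ^ 2 := by
      rw [← card_box]
      unfold hits
      rw [← Finset.card_union_of_disjoint]
      · apply Finset.card_le_card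
        intro p hp
        rw [Finset.mem_union, Finset.mem_filter, Finset.mem_filter] at hp
        rcases hp with hp | hp <;> exact hp.1
      · rw [Finset.disjoint_left]
        intro p hp hp'
        rw [Finset.mem_filter] at hp hp'
        have := (mem_fin hp'.2 (hy3 p hp'.1)).mp hp.2
        rw [Nat.even_add_one] at this
        exact this (even_two_mul _)
    have h2 : (hits T g (S y) (fin E) x : ℝ) + hits T g (S y) (E (2 * (j₀ + n₀ + y₀) + 1)) x ≤ (S y : ℝ) ^ 2 := by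
      exact_mod_cast h1
    have h3 := hn₀ (2 * (j₀ + n₀ + y₀) + 1) (by omega)
    have h4 : (0 : ℝ) ≤ (S y : ℝ) ^ 2 := by positivity
    nlinarith

end Pool.Agent.Q183.Omg
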